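import Mathlib

/-!
A counting function for predicates on finite types, with classical decidability.
-/

namespace Pool.Agent.H25.NM

open Finset

/-- The number of elements of a finite type with a given property. -/
noncomputable def nc {α : Type} [Fintype α] (p : α → Prop) : ℕ :=
  (@Finset.filter α p (Classical.decPred p) Finset.univ).card

section

variable {α β ι : Type} [Fintype α] [Fintype β]

theorem nc_eq (p : α → Prop) [DecidablePred p] : nc p = (univ.filter p).card := by
  unfold nc
  congr

theorem nc_congr {p q : α → Prop} (h : ∀ x, p x ↔ q x) : nc p = nc q := by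
  have : p = q := funext fun x => propext (h x)
  rw [this]

theorem nc_mono {p q : α → Prop} (h : ∀ x, p x → q x) : nc p ≤ nc q := by
  classical
  rw [nc_eq, nc_eq]
  refine Finset.card_le_card fun x hx => ?_
  rw [Finset.mem_filter] at hx ⊢
  exact ⟨hx.1, h x hx.2⟩

theorem nc_le_card (p : α → Prop) : nc p ≤ Fintype.card α := by
  classical
  rw [nc_eq]
  exact (Finset.card_filter_le _ _).trans Finset.card_univ.le

theorem nc_false {p : α → Prop} (h : ∀ x, ¬ p x) : nc p = 0 := by
  classical
  rw [nc_eq, Finset.card_eq_zero]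
  ext x
  simp [h x]

theorem nc_true {p : α → Prop} (h : ∀ x, p x) : nc p = Fintype.card α := by
  classical
  rw [nc_eq, ← Finset.card_univ]
  congr 1
  ext x
  simp [h x]

theorem nc_or_le (p q : α → Prop) : nc (fun x => p x ∨ q x) ≤ nc p + nc q := by
  classical
  rw [nc_eq, nc_eq, nc_eq]
  refine le_trans (Finset.card_le_card ?_) (Finset.card_union_le _ _)
  intro x hx
  rw [Finset.mem_union, Finset.mem_filter, Finset.mem_filter]
  rw [Finset.mem_filter] at hx
  rcases hx.2 with h | h
  · exact Or.inl ⟨hx.1, h⟩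
  · exact Or.inr ⟨hx.1, h⟩

theorem nc_bex_le (I : Finset ι) (p : ι → α → Prop) :
    nc (fun x => ∃ i ∈ I, p i x) ≤ ∑ i ∈ I, nc (p i) := by
  classical
  induction I using Finset.induction_on with
  | empty =>
    rw [nc_false fun x => by simp]
    simp
  | insert a s ha ih =>
    rw [Finset.sum_insert ha]
    refine le_trans (nc_mono fun x hx => ?_) ((nc_or_le (p a) fun x => ∃ i ∈ s, p i x).trans
      (Nat.add_le_add_left ih _))
    obtain ⟨i, hi, hx⟩ := hx
    rcases Finset.mem_insert.1 hi with rfl | hi
    · exact Or.inl hx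
    · exact Or.inr ⟨i, hi, hx⟩

theorem nc_mem (E : Finset α) : nc (fun x => x ∈ E) = E.card := by
  classical
  rw [nc_eq]
  congr 1
  ext x
  simp

theorem nc_add_nc_not (p : α → Prop) : nc p + nc (fun x => ¬ p x) = Fintype.card α := by
  classical
  rw [nc_eq, nc_eq, ← Finset.card_univ]
  exact Finset.card_filter_add_card_filter_not p

theorem nc_pos {p : α → Prop} : 0 < nc p ↔ ∃ x, p x := by
  classical
  rw [nc_eq, Finset.card_pos]
  constructor
  · rintro ⟨x, hx⟩
    exact ⟨x, (Finset.mem_filter.1 hx).2⟩
  · rintro ⟨x, hx⟩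
    exact ⟨x, Finset.mem_filter.2 ⟨Finset.mem_univ _, hx⟩⟩

theorem nc_prod_and (p : α → Prop) (q : β → Prop) :
    nc (fun x : α × β => p x.1 ∧ q x.2) = nc p * nc q := by
  classical
  rw [nc_eq, nc_eq, nc_eq, ← Finset.card_product]
  congr 1
  ext ⟨x, y⟩
  simp

theorem nc_eq_sum (p : α → Prop) : (nc p : ℝ) = ∑ x, (open Classical in if p x then (1 : ℝ) else 0) := by
  classical
  rw [nc_eq, Finset.card_eq_sum_ones, Finset.sum_filter]
  push_cast
  refine Finset.sum_congr rfl fun x _ => ?_
  by_cases h : p x <;> simp [h]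

theorem nc_prod (p : α → β → Prop) :
    nc (fun x : α × β => p x.1 x.2) = ∑ x, nc (p x) := by
  classical
  rw [nc_eq, ← Finset.card_eq_of_equiv_fin (n := (univ.filter fun x : α × β => p x.1 x.2).card)
    (Finset.equivFin _)]
  rw [Finset.card_eq_sum_ones, Finset.sum_filter, Fintype.sum_prod_type]
  refine Finset.sum_congr rfl fun x _ => ?_
  rw [nc_eq, Finset.card_eq_sum_ones, Finset.sum_filter]

theorem nc_equiv (e : α ≃ β) (p : β → Prop) : nc (fun x => p (e x)) = nc p := by
  classical
  rw [nc_eq, nc_eq]
  refine Finset.card_bij' (fun x _ => e x) (fun y _ => e.symm y) ?_ ?_ ?_ ?_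
  · intro x hx
    simpa using hx
  · intro y hy
    simpa using hy
  · intro x _
    simp
  · intro y _
    simp

end

end Pool.Agent.H25.NM
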