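import Pool.Agent.H25.NM.Mono
import Pool.Agent.H25.NM.Nc

/-!
The approximation method on one block, for an arbitrary finite family of negative test graphs.
-/

namespace Pool.Agent.H25.NM

open Finset
open scoped Classical

set_option linter.unusedSectionVars false

/-- The complete graph on `B`. -/
def cq {V : Type} (B : Finset V) : SimpleGraph V where
  Adj u v := u ≠ v ∧ u ∈ B ∧ v ∈ B
  symm := ⟨fun _ _ h => ⟨h.1.symm, h.2.2, h.2.1⟩⟩
  loopless := ⟨fun _ h => h.1 rfl⟩

/-- `x` contains the complete graph on some member of `S`. -/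
def D {V : Type} (S : Finset (Finset V)) (x : SimpleGraph V) : Prop := ∃ T ∈ S, cq T ≤ x

section

variable {V Ω P : Type} [Fintype V] [Fintype Ω] [Fintype P]

theorem cq_mono {B B' : Finset V} (h : B ⊆ B') : cq B ≤ cq B' :=
  fun _ _ hab => ⟨hab.1, h hab.2.1, h hab.2.2⟩

theorem cq_eq_bot {B : Finset V} (h : B.card ≤ 1) : cq B = ⊥ := by
  ext u v
  simp only [SimpleGraph.bot_adj, iff_false]
  rintro ⟨h1, h2, h3⟩
  exact h1 (Finset.card_le_one.1 h u h2 v h3)

theorem subset_of_cq_le {S B : Finset V} (hS : 2 ≤ S.card) (h : cq S ≤ cq B) : S ⊆ B := by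
  intro u hu
  obtain ⟨v, hv, hne⟩ := Finset.exists_mem_ne (by omega : 1 < S.card) u
  have : (cq S).Adj u v := ⟨hne.symm, hu, hv⟩
  exact (h this).2.1

/-- Closed families of small sets. -/
def Closed (R : Ω → SimpleGraph V) (M m : ℕ) (S : Finset (Finset V)) : Prop :=
  (∀ T ∈ S, T.card ≤ m) ∧
    ∀ B : Finset V, B.card ≤ m →
      M * nc (fun ω => ¬ D S (R ω ⊔ cq B)) ≤ Fintype.card Ω → B ∈ S

/-- Minimal members with `b` elements. -/
noncomputable def mins (S : Finset (Finset V)) (b : ℕ) : Finset (Finset V) :=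
  S.filter fun T => T.card = b ∧ ∀ T' ∈ S, T' ⊆ T → T' = T

theorem mem_mins {S : Finset (Finset V)} {b : ℕ} {T : Finset V} :
    T ∈ mins S b ↔ T ∈ S ∧ T.card = b ∧ ∀ T' ∈ S, T' ⊆ T → T' = T := by
  unfold mins
  rw [Finset.mem_filter]

variable {R : Ω → SimpleGraph V} {M m : ℕ}

theorem D_mono {S S' : Finset (Finset V)} (h : S ⊆ S') {x : SimpleGraph V} (hx : D S x) :
    D S' x := by
  obtain ⟨T, hT, h'⟩ := hx
  exact ⟨T, h hT, h'⟩

theorem Closed.mem_of_forall {S : Finset (Finset V)} (h : Closed R M m S) {B : Finset V}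
    (hB : B.card ≤ m) (h' : ∀ ω, D S (R ω ⊔ cq B)) : B ∈ S := by
  refine h.2 B hB ?_
  rw [nc_false fun ω => not_not.2 (h' ω)]
  simp

theorem Closed.up {S : Finset (Finset V)} (h : Closed R M m S) {T B : Finset V} (hT : T ∈ S)
    (hTB : T ⊆ B) (hB : B.card ≤ m) : B ∈ S :=
  h.mem_of_forall hB fun _ => ⟨T, hT, (cq_mono hTB).trans le_sup_right⟩

theorem Closed.all {S : Finset (Finset V)} (h : Closed R M m S) {T : Finset V} (hT : T ∈ S)
    (hT1 : T.card ≤ 1) {B : Finset V} (hB : B.card ≤ m) : B ∈ S :=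
  h.mem_of_forall hB fun _ => ⟨T, hT, by rw [cq_eq_bot hT1]; exact bot_le⟩

theorem Closed.inter {S S' : Finset (Finset V)} (h : Closed R M m S) (h' : Closed R M m S') :
    Closed R M m (S ∩ S') := by
  refine ⟨fun T hT => h.1 T (Finset.mem_inter.1 hT).1, fun B hB hc => Finset.mem_inter.2 ⟨?_, ?_⟩⟩
  · exact h.2 B hB (le_trans (Nat.mul_le_mul_left _ (nc_mono fun ω hω h =>
      hω (D_mono Finset.inter_subset_left h))) hc)
  · exact h'.2 B hB (le_trans (Nat.mul_le_mul_left _ (nc_mono fun ω hω h =>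
      hω (D_mono Finset.inter_subset_right h))) hc)

/-- The number of subsets with at most `m` elements. -/
noncomputable def small (V : Type) [Fintype V] (m : ℕ) : ℕ :=
  ((univ : Finset (Finset V)).filter fun T => T.card ≤ m).card

/-- Every family of small sets lies in a closed one with almost the same indicator on the
negative test graphs. -/
theorem exists_closure (R : Ω → SimpleGraph V) (M m : ℕ) (S₀ : Finset (Finset V))
    (h₀ : ∀ T ∈ S₀, T.card ≤ m) :
    ∃ S, S₀ ⊆ S ∧ Closed R M m S ∧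
      M * nc (fun ω => D S (R ω) ∧ ¬ D S₀ (R ω)) ≤ small V m * Fintype.card Ω := by
  suffices H : ∀ d : ℕ, ∀ S₀ : Finset (Finset V), (∀ T ∈ S₀, T.card ≤ m) →
      small V m ≤ S₀.card + d → ∃ S, S₀ ⊆ S ∧ Closed R M m S ∧
      M * nc (fun ω => D S (R ω) ∧ ¬ D S₀ (R ω)) ≤ d * Fintype.card Ω by
    exact H (small V m) S₀ h₀ (Nat.le_add_left _ _)
  intro d
  induction d with
  | zero =>
    intro S₀ h₀ hd
    have hall : ∀ B : Finset V, B.card ≤ m → B ∈ S₀ := by
      have hsub : S₀ ⊆ (univ : Finset (Finset V)).filter fun T => T.card ≤ m := by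
        intro T hT
        exact Finset.mem_filter.2 ⟨Finset.mem_univ _, h₀ T hT⟩
      have heq := Finset.eq_of_subset_of_card_le hsub (by simpa [small] using hd)
      intro B hB
      rw [heq]
      exact Finset.mem_filter.2 ⟨Finset.mem_univ _, hB⟩
    refine ⟨S₀, Finset.Subset.refl _, ⟨h₀, fun B hB _ => hall B hB⟩, ?_⟩
    rw [nc_false fun ω h => h.2 h.1]
    simp
  | succ d ih =>
    intro S₀ h₀ hd
    by_cases hc : Closed R M m S₀
    · refine ⟨S₀, Finset.Subset.refl _, hc, ?_⟩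
      rw [nc_false fun ω h => h.2 h.1]
      simp
    · have hc' : ∃ B : Finset V, B.card ≤ m ∧
          M * nc (fun ω => ¬ D S₀ (R ω ⊔ cq B)) ≤ Fintype.card Ω ∧ B ∉ S₀ := by
        by_contra hcon
        push Not at hcon
        exact hc ⟨h₀, hcon⟩
      obtain ⟨B, hB, hB1, hB2⟩ := hc'
      obtain ⟨S, hS1, hS2, hS3⟩ := ih (insert B S₀) (by
        intro T hT
        rcases Finset.mem_insert.1 hT with rfl | hT
        · exact hB
        · exact h₀ T hT) (by
        rw [Finset.card_insert_of_notMem hB2]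
        omega)
      refine ⟨S, (Finset.subset_insert _ _).trans hS1, hS2, ?_⟩
      have h1 : nc (fun ω => D S (R ω) ∧ ¬ D S₀ (R ω)) ≤
          nc (fun ω => D S (R ω) ∧ ¬ D (insert B S₀) (R ω)) +
          nc (fun ω => ¬ D S₀ (R ω ⊔ cq B)) := by
        refine le_trans (nc_mono fun ω hω => ?_) (nc_or_le _ _)
        by_cases h1 : D (insert B S₀) (R ω)
        · right
          obtain ⟨T, hT, hTR⟩ := h1
          rcases Finset.mem_insert.1 hT with rfl | hT
          · rw [sup_eq_left.2 hTR]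
            exact hω.2
          · exact absurd ⟨T, hT, hTR⟩ hω.2
        · left
          exact ⟨hω.1, h1⟩
      calc M * nc (fun ω => D S (R ω) ∧ ¬ D S₀ (R ω))
          ≤ M * (nc (fun ω => D S (R ω) ∧ ¬ D (insert B S₀) (R ω)) +
            nc (fun ω => ¬ D S₀ (R ω ⊔ cq B))) := Nat.mul_le_mul_left _ h1
        _ ≤ d * Fintype.card Ω + Fintype.card Ω := by
            rw [Nat.mul_add]
            exact Nat.add_le_add hS3 hB1
        _ = (d + 1) * Fintype.card Ω := by ring

theorem exists_min {S : Finset (Finset V)} {T : Finset V} (hT : T ∈ S) :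
    ∃ T' ⊆ T, T' ∈ mins S T'.card := by
  obtain ⟨T', hT', hmin⟩ := Finset.exists_min_image (S.filter fun X => X ⊆ T) Finset.card
    ⟨T, Finset.mem_filter.2 ⟨hT, Finset.Subset.refl _⟩⟩
  rw [Finset.mem_filter] at hT'
  refine ⟨T', hT'.2, Finset.mem_filter.2 ⟨hT'.1, rfl, fun X hX hXT => ?_⟩⟩
  exact Finset.eq_of_subset_of_card_le hXT
    (hmin X (Finset.mem_filter.2 ⟨hX, hXT.trans hT'.2⟩))

end

end Pool.Agent.H25.NM
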