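import Pool.Agent.H25.NM.SparseFin

/-!
Choice of the parameters for fixed `k` and large `n`.
-/

namespace Pool.Agent.H25.NM

open Finset Filter

set_option linter.unusedSectionVars false

/-- polynomials in the logarithm are small -/
theorem ev_log (C : ℝ) (a : ℕ) {r : ℝ} (hr : 0 < r) :
    ∀ᶠ n : ℕ in atTop, C * (Real.log n + 1) ^ a ≤ (n : ℝ) ^ r := by
  have h1 : (fun x : ℝ => (Real.log x + 1) ^ a) =o[atTop] fun x : ℝ => x ^ r := by
    have h2 : (fun x : ℝ => Real.log x + 1) =O[atTop] fun x : ℝ => Real.log x := by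
      refine Asymptotics.IsBigO.add (Asymptotics.isBigO_refl _ _) ?_
      exact (Asymptotics.isLittleO_const_left.2 (Or.inr (by
        exact tendsto_norm_atTop_atTop.comp Real.tendsto_log_atTop))).isBigO
    have h3 := h2.pow a
    refine h3.trans_isLittleO ?_
    have h4 := isLittleO_log_rpow_rpow_atTop (a : ℝ) hr
    simpa using h4
  have h5 := h1.def (c := 1 / (|C| + 1)) (by positivity)
  have h6 := tendsto_natCast_atTop_atTop (R := ℝ) |>.eventually h5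
  filter_upwards [h6, eventually_ge_atTop 1] with n hn hn1
  have hn0 : (0 : ℝ) < n := by exact_mod_cast hn1
  rw [Real.norm_eq_abs, Real.norm_eq_abs, abs_of_pos (Real.rpow_pos_of_pos hn0 r)] at hn
  have hC : (0 : ℝ) < |C| + 1 := by positivity
  calc C * (Real.log n + 1) ^ a ≤ |C * (Real.log n + 1) ^ a| := le_abs_self _
    _ = |C| * |(Real.log n + 1) ^ a| := abs_mul _ _
    _ ≤ (|C| + 1) * |(Real.log n + 1) ^ a| := by
        gcongr
        linarith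
    _ ≤ (|C| + 1) * (1 / (|C| + 1) * (n : ℝ) ^ r) := by gcongr
    _ = (n : ℝ) ^ r := by field_simp

/-- constants are small -/
theorem ev_const (C : ℝ) {r : ℝ} (hr : 0 < r) : ∀ᶠ n : ℕ in atTop, C ≤ (n : ℝ) ^ r := by
  filter_upwards [ev_log C 0 hr] with n hn
  simpa using hn

theorem one_add_inv_pow_le (m : ℕ) (hm : 1 ≤ m) : (1 + 1 / (3 * m : ℝ)) ^ m ≤ 3 / 2 := by
  have hm0 : (0 : ℝ) < m := by exact_mod_cast hm
  have h1 : (1 + 1 / (3 * m : ℝ)) ≤ Real.exp (1 / (3 * m : ℝ)) := by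
    have := Real.add_one_le_exp (1 / (3 * m : ℝ))
    linarith
  have h2 : (1 + 1 / (3 * m : ℝ)) ^ m ≤ Real.exp (1 / 3) := by
    calc (1 + 1 / (3 * m : ℝ)) ^ m ≤ (Real.exp (1 / (3 * m : ℝ))) ^ m :=
          pow_le_pow_left₀ (by positivity) h1 m
      _ = Real.exp (1 / 3) := by
          rw [← Real.exp_nat_mul]
          congr 1
          field_simp
  refine h2.trans ?_
  have h3 : Real.exp (1 / 3) ^ 3 ≤ (3 / 2 : ℝ) ^ 3 := by
    rw [← Real.exp_nat_mul]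
    have e1 : ((3 : ℕ) : ℝ) * (1 / 3) = 1 := by norm_num
    rw [e1]
    have := Real.exp_one_lt_d9
    norm_num
    linarith
  exact le_of_pow_le_pow_left₀ (by norm_num) (by norm_num) h3

/-- The exponent of a pair of sets with a large union. -/
theorem exponent_le {m a j i : ℕ} (ha : a ≤ m) (hj : j ≤ m) (hia : i ≤ a) (hij : i ≤ j)
    (hlt : m < a + j - i) {L' δ : ℝ} (hL : 0 < L') (hm : (m : ℝ) - 3 / 2 ≤ δ * L' / 4) :
    (2 / L') * ((a.choose 2 + (j.choose 2 - i.choose 2) : ℕ) : ℝ) -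
      ((a + j - i : ℕ) : ℝ) * (δ / 2) ≤
      -(((m : ℝ) + 1) * (δ / 2) - ((m : ℝ) ^ 2 + m - 2) / L') := by
  have hv : ((a + j - i : ℕ) : ℝ) = (a : ℝ) + j - i := by
    rw [Nat.cast_sub (by omega)]
    push_cast
    ring
  have hsq : ∀ b : ℕ, (2 : ℝ) * ((b.choose 2 : ℕ) : ℝ) = (b : ℝ) * ((b : ℝ) - 1) := by
    intro b
    have h1 := two_mul_choose_two b
    rcases Nat.eq_zero_or_pos b with h | h
    · rw [h]
      simp
    · have h2 : ((b - 1 : ℕ) : ℝ) = (b : ℝ) - 1 := by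
        rw [Nat.cast_sub h]
        norm_num
      have h3 : (2 : ℝ) * ((b.choose 2 : ℕ) : ℝ) = ((b - 1 : ℕ) : ℝ) * b := by exact_mod_cast h1
      rw [h3, h2]
      ring
  have he : (2 : ℝ) * ((a.choose 2 + (j.choose 2 - i.choose 2) : ℕ) : ℝ) =
      (a : ℝ) * (a - 1) + j * (j - 1) - i * (i - 1) := by
    rw [Nat.cast_add, Nat.cast_sub (choose_two_mono hij)]
    have h1 := hsq a
    have h2 := hsq j
    have h3 := hsq i
    linarith
  have haR : (a : ℝ) ≤ m := by exact_mod_cast ha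
  have hjR : (j : ℝ) ≤ m := by exact_mod_cast hj
  set y : ℝ := (a : ℝ) + j - i - m - 1 with hy
  have hy0 : 0 ≤ y := by
    have : ((m + 1 : ℕ) : ℝ) ≤ ((a + j - i : ℕ) : ℝ) := by exact_mod_cast hlt
    rw [hv] at this
    push_cast at this
    rw [hy]
    linarith
  have hI : (i : ℝ) = (a : ℝ) + j - m - 1 - y := by
    rw [hy]
    ring
  have hid : ((m : ℝ) ^ 2 + m - 2) + y * (2 * m - 3) -
      ((a : ℝ) * (a - 1) + j * (j - 1) - i * (i - 1)) =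
      y ^ 2 + 2 * (y + 1) * (((m : ℝ) - a) + (m - j)) + 2 * (((m : ℝ) - a) * (m - j)) := by
    rw [hI]
    ring
  have hpos : 0 ≤ y ^ 2 + 2 * (y + 1) * (((m : ℝ) - a) + (m - j)) +
      2 * (((m : ℝ) - a) * (m - j)) := by
    have h1 : (0 : ℝ) ≤ (m : ℝ) - a := by linarith
    have h2 : (0 : ℝ) ≤ (m : ℝ) - j := by linarith
    positivity
  have hyδ : y * (2 * m - 3) ≤ y * (δ * L' / 2) := mul_le_mul_of_nonneg_left (by linarith) hy0
  have hmain : (a : ℝ) * (a - 1) + j * (j - 1) - i * (i - 1) ≤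
      ((m : ℝ) ^ 2 + m - 2) + y * (δ * L' / 2) := by linarith
  rw [hv]
  have hdiv : (2 / L') * ((a.choose 2 + (j.choose 2 - i.choose 2) : ℕ) : ℝ) =
      ((a : ℝ) * (a - 1) + j * (j - 1) - i * (i - 1)) / L' := by
    rw [← he]
    ring
  rw [hdiv]
  have h4 : ((a : ℝ) * (a - 1) + j * (j - 1) - i * (i - 1)) / L' ≤
      (((m : ℝ) ^ 2 + m - 2) + y * (δ * L' / 2)) / L' := div_le_div_of_nonneg_right hmain hL.le
  have h5 : (((m : ℝ) ^ 2 + m - 2) + y * (δ * L' / 2)) / L' =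
      ((m : ℝ) ^ 2 + m - 2) / L' + y * (δ / 2) := by
    field_simp
  rw [h5] at h4
  have h6 : y * (δ / 2) = ((a : ℝ) + j - i) * (δ / 2) - ((m : ℝ) + 1) * (δ / 2) := by
    rw [hy]
    ring
  linarith

/-- The arithmetic of the choice of parameters, packaged. -/
theorem asymp_core {l k m : ℕ} {μ ε e : ℝ} (hl : 2 ≤ l) (hlk : l ≤ k) (hm2 : 2 ≤ m)
    (hμ0 : 0 ≤ μ) (hμ2 : μ < 2) (hm : (m : ℝ) - 3 / 2 ≤ (2 - μ) * ((l : ℝ) - 1) / 4)
    (hε : 0 < ε)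
    (hgap : ((m : ℝ) - 1) * (2 / ((l : ℝ) - 1)) + m * ε < (2 - μ) / 2)
    (hε2 : ε * (2 * (m : ℝ) ^ 2 + 2 * m + 1) ≤ 1 / 4)
    (he : e + μ + 1 / 2 ≤ ((m : ℝ) + 1) * ((2 - μ) / 2) - ((m : ℝ) ^ 2 + m - 2) / ((l : ℝ) - 1)) :
    ∀ᶠ n : ℕ in atTop, ∀ (ι : Type) (s : ℕ) (T : Finset ι)
      (M : ι → SimpleGraph (Fin n) → Prop) (f : SimpleGraph (Fin n) → Prop),
      (s : ℝ) ≤ (n : ℝ) ^ e → (∀ t ∈ T, MonoSize s (M t)) →
      (∀ x y, (∀ t ∈ T, M t x ↔ M t y) → (f x ↔ f y)) →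
      (∀ x, ¬ x.CliqueFree k → f x) → (∀ x, x.CliqueFree l → ¬ f x) →
      ⌊(n : ℝ) ^ (μ + ε)⌋₊ ≤ 6 * T.card := by
  set L' : ℝ := (l : ℝ) - 1 with hL'
  set δ : ℝ := 2 - μ with hδ
  have hL'1 : 1 ≤ L' := by
    have : (2 : ℝ) ≤ l := by exact_mod_cast hl
    rw [hL']
    linarith
  have hL'0 : 0 < L' := by linarith
  have hδ0 : 0 < δ := by
    rw [hδ]
    linarith
  have hδ2 : δ ≤ 2 := by
    rw [hδ]
    linarith
  have hmR : (2 : ℝ) ≤ m := by exact_mod_cast hm2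
  have hk2 : 2 ≤ k := hl.trans hlk
  have hkR : (2 : ℝ) ≤ k := by exact_mod_cast hk2
  have hch : 1 ≤ l.choose 2 := Nat.choose_pos hl
  have hchR : (1 : ℝ) ≤ l.choose 2 := by exact_mod_cast hch
  set E : ℝ := ((m : ℝ) + 1) * (δ / 2) - ((m : ℝ) ^ 2 + m - 2) / L' with hE
  have hεδ : ε < δ / 2 := by
    have h1 : 0 ≤ ((m : ℝ) - 1) * (2 / L') := by
      have : (0 : ℝ) ≤ (m : ℝ) - 1 := by linarith
      positivity
    have h2 : ε ≤ m * ε := by nlinarith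
    linarith
  set r₁ : ℝ := δ / 2 - ε - ((m : ℝ) - 1) * (2 / L' + ε) with hr₁
  have hr₁0 : 0 < r₁ := by
    have : r₁ = δ / 2 - (((m : ℝ) - 1) * (2 / L') + m * ε) := by
      rw [hr₁]
      ring
    rw [this]
    linarith
  set lam : ℕ := ⌈3 / ε⌉₊ with hlam
  have hlam3 : 3 ≤ ε * ((lam + 1 : ℕ) : ℝ) := by
    have h1 : 3 / ε ≤ (lam : ℝ) := Nat.le_ceil _
    have h2 : 3 / ε ≤ ((lam + 1 : ℕ) : ℝ) := by
      push_cast
      linarith
    rwa [div_le_iff₀' hε] at h2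
  set C₁ : ℕ := 2 * m + 5 with hC₁
  set C₂ : ℝ := (3 * m : ℝ) ^ (2 * m) * 2 ^ (2 * m ^ 2 + 2 * m) with hC₂
  have hC₂0 : 0 < C₂ := by
    rw [hC₂]
    positivity
  -- the eventual conditions
  filter_upwards [eventually_ge_atTop 2, ev_const 2 (r := δ / 2 - ε) (by linarith),
    ev_const (4 * (3 * m : ℝ) * 2 ^ (m - 1)) hr₁0,
    ev_const (k : ℝ) hε,
    ev_const ((2 * (k : ℝ)) ^ (2 * (lam + 1)) + 1) (r := 1) one_pos,
    ev_const (2 * ((m + 1) ^ 2 * 2 ^ m * C₂)) (r := 1 / 4) (by norm_num),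
    ev_const (2 * 2 ^ m) (r := 1) one_pos,
    ev_log (2 * (2 * lam * C₁) ^ (l.choose 2)) (l.choose 2) (r := ε * l.choose 2)
      (by positivity)]
    with n hn2 e1 e2 e3 e4 e5 e6 e7
  intro ι s T M f hs hM hf hpos hneg
  have hn0 : (0 : ℝ) < n := by
    have : (2 : ℝ) ≤ n := by exact_mod_cast hn2
    linarith
  have hn1 : (1 : ℝ) ≤ n := by
    have : (2 : ℝ) ≤ n := by exact_mod_cast hn2
    linarith
  rw [Real.rpow_one] at e4 e6
  -- the parameters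
  set w := ⌊(n : ℝ) ^ (δ / 2 - ε)⌋₊ with hw
  set Q := ⌈(n : ℝ) ^ (2 / L' + ε)⌉₊ with hQ
  set L := C₁ * (Nat.log 2 n + 1) with hL
  set N := n / (k * w) with hN
  set J := ⌊(n : ℝ) ^ (μ + ε)⌋₊ with hJ
  have hwle : (w : ℝ) ≤ (n : ℝ) ^ (δ / 2 - ε) := Nat.floor_le (by positivity)
  have hwge : (n : ℝ) ^ (δ / 2 - ε) / 2 ≤ w := by
    have := Nat.lt_floor_add_one ((n : ℝ) ^ (δ / 2 - ε))
    rw [← hw] at this
    linarith
  have hw1 : 1 ≤ w := by
    rw [hw, Nat.one_le_floor_iff]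
    linarith
  have hwR : (1 : ℝ) ≤ w := by exact_mod_cast hw1
  have hJle : (J : ℝ) ≤ (n : ℝ) ^ (μ + ε) := Nat.floor_le (by positivity)
  have hQge : (n : ℝ) ^ (2 / L' + ε) ≤ Q := Nat.le_ceil _
  have hnQ1 : (1 : ℝ) ≤ (n : ℝ) ^ (2 / L' + ε) := Real.one_le_rpow hn1 (by positivity)
  have hQle : (Q : ℝ) ≤ 2 * (n : ℝ) ^ (2 / L' + ε) := by
    have := Nat.ceil_lt_add_one (a := (n : ℝ) ^ (2 / L' + ε)) (by positivity)
    rw [← hQ] at this
    linarith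
  have hQ1 : (1 : ℝ) ≤ Q := hnQ1.trans hQge
  have hQpos : 0 < Q := by
    have : (0 : ℝ) < Q := by linarith
    exact_mod_cast this
  have : NeZero Q := ⟨hQpos.ne'⟩
  have hL1 : 1 ≤ L := by
    rw [hL, hC₁]
    exact Nat.succ_le_of_lt (Nat.mul_pos (by omega) (by omega))
  -- the density condition
  have hc : 2 * (3 * m : ℝ) * (Q : ℝ) ^ (m - 1) ≤ w := by
    have g1 : (Q : ℝ) ^ (m - 1) ≤ 2 ^ (m - 1) * (n : ℝ) ^ (((m : ℝ) - 1) * (2 / L' + ε)) := by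
      calc (Q : ℝ) ^ (m - 1) ≤ (2 * (n : ℝ) ^ (2 / L' + ε)) ^ (m - 1) :=
            pow_le_pow_left₀ (by positivity) hQle _
        _ = 2 ^ (m - 1) * (n : ℝ) ^ (((m : ℝ) - 1) * (2 / L' + ε)) := by
            rw [mul_pow, ← Real.rpow_natCast ((n : ℝ) ^ (2 / L' + ε)), ← Real.rpow_mul hn0.le,
              Nat.cast_sub (by omega), Nat.cast_one, mul_comm (2 / L' + ε)]
    have g2 : (n : ℝ) ^ (δ / 2 - ε) =
        (n : ℝ) ^ (((m : ℝ) - 1) * (2 / L' + ε)) * (n : ℝ) ^ r₁ := by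
      rw [← Real.rpow_add hn0]
      congr 1
      rw [hr₁]
      ring
    calc 2 * (3 * m : ℝ) * (Q : ℝ) ^ (m - 1)
        ≤ 2 * (3 * m : ℝ) * (2 ^ (m - 1) * (n : ℝ) ^ (((m : ℝ) - 1) * (2 / L' + ε))) :=
          mul_le_mul_of_nonneg_left g1 (by positivity)
      _ = (4 * (3 * m : ℝ) * 2 ^ (m - 1)) * (n : ℝ) ^ (((m : ℝ) - 1) * (2 / L' + ε)) / 2 := by
          ring
      _ ≤ (n : ℝ) ^ r₁ * (n : ℝ) ^ (((m : ℝ) - 1) * (2 / L' + ε)) / 2 := by gcongr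
      _ = (n : ℝ) ^ (δ / 2 - ε) / 2 := by
          rw [g2]
          ring
      _ ≤ w := hwge
  -- the number of copies
  have hkw0 : 0 < k * w := Nat.mul_pos (by omega) hw1
  have hkwn : (k : ℝ) * w ≤ n := by
    calc (k : ℝ) * w ≤ (n : ℝ) ^ ε * (n : ℝ) ^ (δ / 2 - ε) := by gcongr
      _ = (n : ℝ) ^ (δ / 2) := by
          rw [← Real.rpow_add hn0]
          congr 1
          ring
      _ ≤ (n : ℝ) ^ (1 : ℝ) := Real.rpow_le_rpow_of_exponent_le hn1 (by linarith)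
      _ = n := Real.rpow_one _
  have hkwn' : k * w ≤ n := by exact_mod_cast hkwn
  have hnN : k * w * N ≤ n := Nat.mul_div_le n (k * w)
  have hN1 : 1 ≤ N := (Nat.one_le_div_iff hkw0).2 hkwn'
  have hNge : (n : ℝ) ^ (μ / 2 + ε) / (2 * k) ≤ N := by
    have h1 : n < (k * w) * (N + 1) := by
      have := Nat.lt_mul_div_succ n hkw0
      exact this
    have h2 : (n : ℝ) ≤ k * w * (N + 1) := by exact_mod_cast h1.le
    have h3 : (1 : ℝ) ≤ N := by exact_mod_cast hN1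
    have h4 : (n : ℝ) ≤ k * (n : ℝ) ^ (δ / 2 - ε) * (2 * N) := by
      calc (n : ℝ) ≤ k * w * (N + 1) := h2
        _ ≤ k * (n : ℝ) ^ (δ / 2 - ε) * (2 * N) := by
            gcongr
            linarith
    have h5 : (n : ℝ) = (n : ℝ) ^ (μ / 2 + ε) * (n : ℝ) ^ (δ / 2 - ε) := by
      rw [← Real.rpow_add hn0]
      have : μ / 2 + ε + (δ / 2 - ε) = 1 := by
        rw [hδ]
        ring
      rw [this, Real.rpow_one]
    rw [div_le_iff₀ (by positivity)]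
    have h6 : (n : ℝ) ^ (μ / 2 + ε) * (n : ℝ) ^ (δ / 2 - ε) ≤
        (N * (2 * k)) * (n : ℝ) ^ (δ / 2 - ε) := by
      rw [← h5]
      calc (n : ℝ) ≤ k * (n : ℝ) ^ (δ / 2 - ε) * (2 * N) := h4
        _ = _ := by ring
    exact le_of_mul_le_mul_right h6 (by positivity)
  have hcount : (k * w * N) ^ 2 * J ^ (lam + 1) < N ^ (2 * (lam + 1)) := by
    have h1 : ((k * w * N : ℕ) : ℝ) ≤ n := by exact_mod_cast hnN
    have h2 : (((k * w * N) ^ 2 * J ^ (lam + 1) : ℕ) : ℝ) ≤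
        (n : ℝ) ^ 2 * (n : ℝ) ^ ((μ + ε) * ((lam + 1 : ℕ) : ℝ)) := by
      rw [Nat.cast_mul, Nat.cast_pow, Nat.cast_pow]
      have h3 : (J : ℝ) ^ (lam + 1) ≤ (n : ℝ) ^ ((μ + ε) * ((lam + 1 : ℕ) : ℝ)) := by
        rw [Real.rpow_mul hn0.le, Real.rpow_natCast]
        exact pow_le_pow_left₀ (by positivity) hJle _
      exact mul_le_mul (pow_le_pow_left₀ (by positivity) h1 2) h3 (by positivity) (by positivity)
    have h4 : (n : ℝ) ^ 2 * (n : ℝ) ^ ((μ + ε) * ((lam + 1 : ℕ) : ℝ)) <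
        ((n : ℝ) ^ (μ / 2 + ε) / (2 * k)) ^ (2 * (lam + 1)) := by
      have g1 : ((n : ℝ) ^ (μ / 2 + ε)) ^ (2 * (lam + 1)) =
          (n : ℝ) ^ ((μ + ε) * ((lam + 1 : ℕ) : ℝ)) * (n : ℝ) ^ (ε * ((lam + 1 : ℕ) : ℝ)) := by
        rw [← Real.rpow_natCast ((n : ℝ) ^ (μ / 2 + ε)), ← Real.rpow_mul hn0.le,
          ← Real.rpow_add hn0]
        congr 1
        push_cast
        ring
      have g2 : (n : ℝ) ^ 3 ≤ (n : ℝ) ^ (ε * ((lam + 1 : ℕ) : ℝ)) := by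
        rw [← Real.rpow_natCast (n : ℝ) 3]
        exact Real.rpow_le_rpow_of_exponent_le hn1 (by exact_mod_cast hlam3)
      rw [div_pow, lt_div_iff₀ (by positivity), g1]
      have g3 : (2 * (k : ℝ)) ^ (2 * (lam + 1)) < n := by linarith
      calc (n : ℝ) ^ 2 * (n : ℝ) ^ ((μ + ε) * ((lam + 1 : ℕ) : ℝ)) * (2 * k) ^ (2 * (lam + 1))
          < (n : ℝ) ^ 2 * (n : ℝ) ^ ((μ + ε) * ((lam + 1 : ℕ) : ℝ)) * n :=
            mul_lt_mul_of_pos_left g3 (by positivity)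
        _ = (n : ℝ) ^ ((μ + ε) * ((lam + 1 : ℕ) : ℝ)) * (n : ℝ) ^ 3 := by ring
        _ ≤ _ := mul_le_mul_of_nonneg_left g2 (by positivity)
    have h5 : ((n : ℝ) ^ (μ / 2 + ε) / (2 * k)) ^ (2 * (lam + 1)) ≤
        ((N ^ (2 * (lam + 1)) : ℕ) : ℝ) := by
      rw [Nat.cast_pow]
      exact pow_le_pow_left₀ (by positivity) hNge _
    exact_mod_cast h2.trans_lt (h4.trans_le h5)
  -- pairs with a large union
  set η : ℝ := C₂ * (n : ℝ) ^ (-E + ε * (2 * (m : ℝ) ^ 2 + 2 * m)) with hη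
  have hη0 : 0 ≤ η := by
    rw [hη]
    positivity
  have hEE : ∀ a ≤ m, ∀ j ≤ m, ∀ i ≤ a, i ≤ j → m < a + j - i →
      (3 * m : ℝ) ^ (a + j - i) * (Q : ℝ) ^ (a.choose 2 + (j.choose 2 - i.choose 2)) ≤
        η * (w : ℝ) ^ (a + j - i) := by
    intro a ha j hj i hia hij hlt
    have hexp := exponent_le ha hj hia hij hlt hL'0 hm
    rw [← hE] at hexp
    set v := a + j - i with hv
    set c := a.choose 2 + (j.choose 2 - i.choose 2) with hcdef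
    have hv2 : v ≤ 2 * m := by omega
    have hc2 : c ≤ 2 * m ^ 2 := by
      have h1 := choose_two_mono ha
      have h2 := choose_two_mono hj
      have h3 : 2 * m.choose 2 ≤ m ^ 2 := by
        rw [two_mul_choose_two, sq]
        exact Nat.mul_le_mul_right _ (by omega)
      omega
    have g1 : (Q : ℝ) ^ c ≤ 2 ^ c * (n : ℝ) ^ ((2 / L' + ε) * c) := by
      calc (Q : ℝ) ^ c ≤ (2 * (n : ℝ) ^ (2 / L' + ε)) ^ c :=
            pow_le_pow_left₀ (by positivity) hQle _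
        _ = 2 ^ c * (n : ℝ) ^ ((2 / L' + ε) * c) := by
            rw [mul_pow, ← Real.rpow_natCast ((n : ℝ) ^ (2 / L' + ε)), ← Real.rpow_mul hn0.le]
    have g2 : (n : ℝ) ^ ((δ / 2 - ε) * v) / 2 ^ v ≤ (w : ℝ) ^ v := by
      calc (n : ℝ) ^ ((δ / 2 - ε) * v) / 2 ^ v = ((n : ℝ) ^ (δ / 2 - ε) / 2) ^ v := by
            rw [div_pow, ← Real.rpow_natCast ((n : ℝ) ^ (δ / 2 - ε)), ← Real.rpow_mul hn0.le]
        _ ≤ (w : ℝ) ^ v := pow_le_pow_left₀ (by positivity) hwge _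
    have g3 : (n : ℝ) ^ ((2 / L' + ε) * c) ≤
        (n : ℝ) ^ (-E + ε * (2 * (m : ℝ) ^ 2 + 2 * m)) * (n : ℝ) ^ ((δ / 2 - ε) * v) := by
      rw [← Real.rpow_add hn0]
      refine Real.rpow_le_rpow_of_exponent_le hn1 ?_
      have h1 : (c : ℝ) ≤ 2 * (m : ℝ) ^ 2 := by exact_mod_cast hc2
      have h2 : (v : ℝ) ≤ 2 * m := by exact_mod_cast hv2
      have h3 : ε * (c + v) ≤ ε * (2 * (m : ℝ) ^ 2 + 2 * m) :=
        mul_le_mul_of_nonneg_left (by linarith) hε.le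
      have h4 : (2 / L' + ε) * c = 2 / L' * c + ε * c := by ring
      have h5 : (δ / 2 - ε) * v = v * (δ / 2) - ε * v := by ring
      have h6 : ε * ((c : ℝ) + v) = ε * c + ε * v := by ring
      rw [h4, h5]
      linarith
    have g4 : (3 * m : ℝ) ^ v * 2 ^ c * 2 ^ v ≤ C₂ := by
      rw [hC₂]
      have h1 : (1 : ℝ) ≤ 3 * m := by linarith
      have h2 : (3 * m : ℝ) ^ v ≤ (3 * m : ℝ) ^ (2 * m) := pow_le_pow_right₀ h1 hv2
      have h3 : (2 : ℝ) ^ c * 2 ^ v ≤ 2 ^ (2 * m ^ 2 + 2 * m) := by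
        rw [← pow_add]
        exact pow_le_pow_right₀ (by norm_num) (by omega)
      calc (3 * m : ℝ) ^ v * 2 ^ c * 2 ^ v = (3 * m : ℝ) ^ v * (2 ^ c * 2 ^ v) := by ring
        _ ≤ _ := mul_le_mul h2 h3 (by positivity) (by positivity)
    calc (3 * m : ℝ) ^ v * (Q : ℝ) ^ c
        ≤ (3 * m : ℝ) ^ v * (2 ^ c * ((n : ℝ) ^ (-E + ε * (2 * (m : ℝ) ^ 2 + 2 * m)) *
          (n : ℝ) ^ ((δ / 2 - ε) * v))) := by
          refine mul_le_mul_of_nonneg_left (g1.trans ?_) (by positivity)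
          exact mul_le_mul_of_nonneg_left g3 (by positivity)
      _ = ((3 * m : ℝ) ^ v * 2 ^ c * 2 ^ v) * (n : ℝ) ^ (-E + ε * (2 * (m : ℝ) ^ 2 + 2 * m)) *
          ((n : ℝ) ^ ((δ / 2 - ε) * v) / 2 ^ v) := by
          field_simp
      _ ≤ C₂ * (n : ℝ) ^ (-E + ε * (2 * (m : ℝ) ^ 2 + 2 * m)) * (w : ℝ) ^ v := by
          gcongr
      _ = η * (w : ℝ) ^ v := by rw [hη]
  -- first error condition
  have he1 : 2 * (J : ℝ) * s * ((m + 1) ^ 2 * 2 ^ m * η) ≤ 1 := by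
    have h1 : (n : ℝ) ^ (μ + ε) * (n : ℝ) ^ e *
        (n : ℝ) ^ (-E + ε * (2 * (m : ℝ) ^ 2 + 2 * m)) ≤ (n : ℝ) ^ (-(1 / 4) : ℝ) := by
      rw [← Real.rpow_add hn0, ← Real.rpow_add hn0]
      refine Real.rpow_le_rpow_of_exponent_le hn1 ?_
      have : ε * (2 * (m : ℝ) ^ 2 + 2 * m + 1) = ε * (2 * (m : ℝ) ^ 2 + 2 * m) + ε := by ring
      linarith
    calc 2 * (J : ℝ) * s * ((m + 1) ^ 2 * 2 ^ m * η)
        ≤ 2 * (n : ℝ) ^ (μ + ε) * (n : ℝ) ^ e * ((m + 1) ^ 2 * 2 ^ m * η) := by gcongr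
      _ = (2 * ((m + 1) ^ 2 * 2 ^ m * C₂)) * ((n : ℝ) ^ (μ + ε) * (n : ℝ) ^ e *
          (n : ℝ) ^ (-E + ε * (2 * (m : ℝ) ^ 2 + 2 * m))) := by
          rw [hη]
          ring
      _ ≤ (n : ℝ) ^ (1 / 4 : ℝ) * (n : ℝ) ^ (-(1 / 4) : ℝ) := by
          gcongr
      _ = 1 := by
          rw [← Real.rpow_add hn0]
          norm_num
  -- second error condition
  have hnlog : (n : ℝ) ≤ 2 ^ (Nat.log 2 n + 1) := by
    exact_mod_cast (Nat.lt_pow_succ_log_self (by norm_num) n).le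
  have hsn : (s : ℝ) ≤ (n : ℝ) ^ (m + 1) := by
    refine hs.trans ?_
    rw [← Real.rpow_natCast (n : ℝ) (m + 1)]
    refine Real.rpow_le_rpow_of_exponent_le hn1 ?_
    have h1 : 0 ≤ ((m : ℝ) ^ 2 + m - 2) / L' := by
      apply div_nonneg _ hL'0.le
      nlinarith
    have h2 : ((m : ℝ) + 1) * (δ / 2) ≤ ((m : ℝ) + 1) * 1 :=
      mul_le_mul_of_nonneg_left (by linarith) (by positivity)
    push_cast
    linarith
  have hJ3 : (J : ℝ) ≤ (n : ℝ) ^ 3 := by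
    refine hJle.trans ?_
    rw [← Real.rpow_natCast (n : ℝ) 3]
    refine Real.rpow_le_rpow_of_exponent_le hn1 ?_
    push_cast
    linarith
  have he2 : 2 * (J : ℝ) * s * ((k * w + 1 : ℕ) : ℝ) ^ m ≤ 3 ^ L := by
    have g1 : ((k * w + 1 : ℕ) : ℝ) ≤ 2 * n := by
      have : k * w + 1 ≤ 2 * n := by omega
      exact_mod_cast this
    calc 2 * (J : ℝ) * s * ((k * w + 1 : ℕ) : ℝ) ^ m
        ≤ 2 * (n : ℝ) ^ 3 * (n : ℝ) ^ (m + 1) * (2 * n) ^ m := by gcongr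
      _ = (2 * 2 ^ m) * ((n : ℝ) ^ 3 * (n : ℝ) ^ (m + 1) * (n : ℝ) ^ m) := by
          rw [mul_pow]
          ring
      _ ≤ n * ((n : ℝ) ^ 3 * (n : ℝ) ^ (m + 1) * (n : ℝ) ^ m) := by gcongr
      _ = (n : ℝ) ^ C₁ := by
          rw [hC₁]
          ring
      _ ≤ (2 ^ (Nat.log 2 n + 1)) ^ C₁ := pow_le_pow_left₀ hn0.le hnlog _
      _ = 2 ^ L := by
          rw [hL, ← pow_mul, mul_comm C₁]
      _ ≤ 3 ^ L := pow_le_pow_left₀ (by norm_num) (by norm_num) _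
  -- no clique
  have hcl : 2 * n ^ l * (lam * L) ^ (l.choose 2) ≤ Q ^ (l.choose 2) := by
    have g0 : (L : ℝ) ≤ 2 * C₁ * (Real.log n + 1) := by
      have g1 : ((Nat.log 2 n : ℕ) : ℝ) ≤ 2 * Real.log n := by
        have h1 : (2 : ℝ) ^ (Nat.log 2 n) ≤ n := by
          exact_mod_cast Nat.pow_log_le_self 2 (by omega)
        have h2 := Real.log_le_log (by positivity) h1
        rw [Real.log_pow] at h2
        have h3 : (1 / 2 : ℝ) ≤ Real.log 2 := by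
          have := Real.log_two_gt_d9
          linarith
        have h4 : ((Nat.log 2 n : ℕ) : ℝ) * (1 / 2) ≤ ((Nat.log 2 n : ℕ) : ℝ) * Real.log 2 :=
          mul_le_mul_of_nonneg_left h3 (by positivity)
        linarith
      have hlogn : 0 ≤ Real.log n := Real.log_nonneg hn1
      rw [hL]
      push_cast
      have : (0 : ℝ) ≤ C₁ := by positivity
      nlinarith
    have hlch : (2 * l.choose 2 : ℝ) = l * L' := by
      have := two_mul_choose_two l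
      have h2 : ((l - 1 : ℕ) : ℝ) = (l : ℝ) - 1 := by
        rw [Nat.cast_sub (by omega)]
        norm_num
      rw [hL', ← h2]
      have h3 : (2 : ℝ) * ((l.choose 2 : ℕ) : ℝ) = ((l - 1 : ℕ) : ℝ) * l := by exact_mod_cast this
      rw [h3]
      ring
    have g1 : (n : ℝ) ^ (l : ℝ) * (n : ℝ) ^ (ε * l.choose 2) ≤ (Q : ℝ) ^ (l.choose 2) := by
      calc (n : ℝ) ^ (l : ℝ) * (n : ℝ) ^ (ε * l.choose 2) =
            ((n : ℝ) ^ (2 / L' + ε)) ^ (l.choose 2) := by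
            rw [← Real.rpow_natCast ((n : ℝ) ^ (2 / L' + ε)), ← Real.rpow_mul hn0.le,
              ← Real.rpow_add hn0]
            congr 1
            have h1 : 2 / L' * (l.choose 2 : ℝ) = l := by
              have : 2 / L' * (l.choose 2 : ℝ) = (2 * l.choose 2 : ℝ) / L' := by ring
              rw [this, hlch]
              field_simp
            rw [add_mul, h1]
        _ ≤ (Q : ℝ) ^ (l.choose 2) := pow_le_pow_left₀ (by positivity) hQge _
    have g2 : (2 * n ^ l * (lam * L) ^ (l.choose 2) : ℝ) ≤ (Q : ℝ) ^ (l.choose 2) := by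
      refine le_trans ?_ g1
      calc (2 * n ^ l * (lam * L) ^ (l.choose 2) : ℝ) ≤
            2 * (n : ℝ) ^ l * (lam * (2 * C₁ * (Real.log n + 1))) ^ (l.choose 2) := by gcongr
        _ = (n : ℝ) ^ l * (2 * (2 * lam * C₁) ^ (l.choose 2) *
            (Real.log n + 1) ^ (l.choose 2)) := by
            have : (lam : ℝ) * (2 * C₁ * (Real.log n + 1)) =
                (2 * lam * C₁) * (Real.log n + 1) := by ring
            rw [this, mul_pow]
            ring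
        _ ≤ (n : ℝ) ^ l * (n : ℝ) ^ (ε * l.choose 2) := by gcongr
        _ = (n : ℝ) ^ (l : ℝ) * (n : ℝ) ^ (ε * l.choose 2) := by
            rw [Real.rpow_natCast]
    exact_mod_cast g2
  -- apply the finite form
  have h32 : (1 + 1 / (3 * m : ℝ)) ^ m ≤ 3 / 2 := one_add_inv_pow_le m (by omega)
  exact sparse_finite (k := k) (l := l) (w := w) (L := L) (Q := Q) (J := J) (N := N) (lam := lam)
    (n := n) (s := s) (m := m) hL1 hw1 hm2 (Λ := 3 * m) (η := η) (by linarith) hη0 h32 hc hEE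
    hnN hcount he1 he2 hcl T M hM f hf hpos hneg

end Pool.Agent.H25.NM
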