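import Pool.Agent.H25.NM.Planted

/-!
Random block systems: many blocks such that every pair of vertices lies in few of them.
-/

namespace Pool.Agent.H25.NM

open Finset

set_option linter.unusedSectionVars false

section

variable {V : Type} [Fintype V] [DecidableEq V]

/-- A random family of functions has few coincidences. -/
theorem exists_code {N J lam : ℕ}
    (hcount : (Fintype.card V * N) ^ 2 * J ^ (lam + 1) < N ^ (2 * (lam + 1))) :
    ∃ y : Fin J → V → Fin N, ∀ u v : V, u ≠ v → ∀ a b : Fin N,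
      nc (fun j => y j u = a ∧ y j v = b) ≤ lam := by
  classical
  set K := Fintype.card (Fin J → V → Fin N) with hK
  -- one configuration
  have hone : ∀ u v : V, u ≠ v → ∀ a b : Fin N, ∀ Y ∈ powersetCard (lam + 1) (univ : Finset (Fin J)),
      nc (fun y : Fin J → V → Fin N => ∀ j ∈ Y, y j u = a ∧ y j v = b) * N ^ (2 * (lam + 1)) =
        K := by
    intro u v huv a b Y hY
    have hYc := (Finset.mem_powersetCard.1 hY).2
    have h1 := nc_forall_eq (A := Fin N) (Y ×ˢ ({u, v} : Finset V))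
      fun i => if i.2 = u then a else b
    rw [Finset.card_product, Finset.card_pair huv, hYc, Fintype.card_fin, mul_comm (lam + 1) 2] at h1
    have h2 := nc_equiv (Equiv.curry (Fin J) V (Fin N)).symm
      fun x : Fin J × V → Fin N => ∀ i ∈ Y ×ˢ ({u, v} : Finset V), x i = if i.2 = u then a else b
    have h3 : nc (fun y : Fin J → V → Fin N => ∀ j ∈ Y, y j u = a ∧ y j v = b) =
        nc (fun y : Fin J → V → Fin N => ∀ i ∈ Y ×ˢ ({u, v} : Finset V),
          (Equiv.curry (Fin J) V (Fin N)).symm y i = if i.2 = u then a else b) := by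
      refine nc_congr fun y => ?_
      constructor
      · rintro h ⟨j, x⟩ hi
        obtain ⟨hj, hx⟩ := Finset.mem_product.1 hi
        show y j x = if x = u then a else b
        have hx' : x = u ∨ x = v := by simpa using hx
        rcases hx' with rfl | rfl
        · rw [if_pos rfl]
          exact (h j hj).1
        · rw [if_neg huv.symm]
          exact (h j hj).2
      · intro h j hj
        have e1 := h (j, u) (Finset.mem_product.2 ⟨hj, by simp⟩)
        have e2 := h (j, v) (Finset.mem_product.2 ⟨hj, by simp⟩)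
        constructor
        · have : y j u = if u = u then a else b := e1
          rwa [if_pos rfl] at this
        · have : y j v = if v = u then a else b := e2
          rwa [if_neg huv.symm] at this
    rw [h3, h2, h1, hK, Fintype.card_fun, Fintype.card_fun, Fintype.card_fin, Fintype.card_fin,
      Fintype.card_prod, Fintype.card_fin, ← pow_mul, mul_comm (Fintype.card V)]
  -- union bound
  have hbad : nc (fun y : Fin J → V → Fin N =>
      ∃ q ∈ (univ : Finset ((V × V) × (Fin N × Fin N))),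
        ∃ Y ∈ powersetCard (lam + 1) (univ : Finset (Fin J)),
          q.1.1 ≠ q.1.2 ∧ ∀ j ∈ Y, y j q.1.1 = q.2.1 ∧ y j q.1.2 = q.2.2) < K := by
    have h1 : nc (fun y : Fin J → V → Fin N =>
      ∃ q ∈ (univ : Finset ((V × V) × (Fin N × Fin N))),
        ∃ Y ∈ powersetCard (lam + 1) (univ : Finset (Fin J)),
          q.1.1 ≠ q.1.2 ∧ ∀ j ∈ Y, y j q.1.1 = q.2.1 ∧ y j q.1.2 = q.2.2) ≤
        ∑ q : (V × V) × (Fin N × Fin N), ∑ Y ∈ powersetCard (lam + 1) (univ : Finset (Fin J)),
          nc (fun y : Fin J → V → Fin N =>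
            q.1.1 ≠ q.1.2 ∧ ∀ j ∈ Y, y j q.1.1 = q.2.1 ∧ y j q.1.2 = q.2.2) := by
      refine (nc_bex_le univ fun (q : (V × V) × (Fin N × Fin N)) (y : Fin J → V → Fin N) =>
        ∃ Y ∈ powersetCard (lam + 1) (univ : Finset (Fin J)),
          q.1.1 ≠ q.1.2 ∧ ∀ j ∈ Y, y j q.1.1 = q.2.1 ∧ y j q.1.2 = q.2.2).trans ?_
      refine Finset.sum_le_sum fun q _ => ?_
      exact nc_bex_le (powersetCard (lam + 1) (univ : Finset (Fin J)))
        fun Y (y : Fin J → V → Fin N) =>
          q.1.1 ≠ q.1.2 ∧ ∀ j ∈ Y, y j q.1.1 = q.2.1 ∧ y j q.1.2 = q.2.2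
    have h2 : ∀ (q : (V × V) × (Fin N × Fin N)),
        ∀ Y ∈ powersetCard (lam + 1) (univ : Finset (Fin J)),
        nc (fun y : Fin J → V → Fin N =>
            q.1.1 ≠ q.1.2 ∧ ∀ j ∈ Y, y j q.1.1 = q.2.1 ∧ y j q.1.2 = q.2.2) *
          N ^ (2 * (lam + 1)) ≤ K := by
      intro q Y hY
      by_cases hq : q.1.1 ≠ q.1.2
      · rw [← hone q.1.1 q.1.2 hq q.2.1 q.2.2 Y hY]
        exact Nat.mul_le_mul_right _ (nc_mono fun y hy => hy.2)
      · rw [nc_false fun y hy => hq hy.1]
        simp
    have h3 : nc (fun y : Fin J → V → Fin N =>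
      ∃ q ∈ (univ : Finset ((V × V) × (Fin N × Fin N))),
        ∃ Y ∈ powersetCard (lam + 1) (univ : Finset (Fin J)),
          q.1.1 ≠ q.1.2 ∧ ∀ j ∈ Y, y j q.1.1 = q.2.1 ∧ y j q.1.2 = q.2.2) * N ^ (2 * (lam + 1)) ≤
        (Fintype.card V * N) ^ 2 * J ^ (lam + 1) * K := by
      calc _ ≤ (∑ q : (V × V) × (Fin N × Fin N),
            ∑ Y ∈ powersetCard (lam + 1) (univ : Finset (Fin J)),
            nc (fun y : Fin J → V → Fin N =>
              q.1.1 ≠ q.1.2 ∧ ∀ j ∈ Y, y j q.1.1 = q.2.1 ∧ y j q.1.2 = q.2.2)) *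
              N ^ (2 * (lam + 1)) := Nat.mul_le_mul_right _ h1
        _ = ∑ q : (V × V) × (Fin N × Fin N),
            ∑ Y ∈ powersetCard (lam + 1) (univ : Finset (Fin J)),
            nc (fun y : Fin J → V → Fin N =>
              q.1.1 ≠ q.1.2 ∧ ∀ j ∈ Y, y j q.1.1 = q.2.1 ∧ y j q.1.2 = q.2.2) *
              N ^ (2 * (lam + 1)) := by
            rw [Finset.sum_mul]
            exact Finset.sum_congr rfl fun q _ => Finset.sum_mul _ _ _
        _ ≤ ∑ q : (V × V) × (Fin N × Fin N),
            ∑ Y ∈ powersetCard (lam + 1) (univ : Finset (Fin J)), K :=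
            Finset.sum_le_sum fun q _ => Finset.sum_le_sum fun Y hY => h2 q Y hY
        _ = (Fintype.card V * N) ^ 2 * J.choose (lam + 1) * K := by
            rw [Finset.sum_const, Finset.sum_const, Finset.card_powersetCard, Finset.card_univ,
              Finset.card_univ, Fintype.card_prod, Fintype.card_prod, Fintype.card_prod,
              Fintype.card_fin, Fintype.card_fin, smul_eq_mul, smul_eq_mul]
            ring
        _ ≤ _ := Nat.mul_le_mul_right _ (Nat.mul_le_mul_left _ (Nat.choose_le_pow _ _))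
    have hN : 0 < N := by
      rcases Nat.eq_zero_or_pos N with h | h
      · rw [h] at hcount
        simp at hcount
      · exact h
    have hKpos : 0 < K := by
      rw [hK, Fintype.card_fun, Fintype.card_fun, Fintype.card_fin, Fintype.card_fin]
      positivity
    have h4 : (Fintype.card V * N) ^ 2 * J ^ (lam + 1) * K < N ^ (2 * (lam + 1)) * K :=
      Nat.mul_lt_mul_of_pos_right hcount hKpos
    have h5 := h3.trans_lt h4
    rw [mul_comm (N ^ (2 * (lam + 1)))] at h5
    exact Nat.lt_of_mul_lt_mul_right h5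
  -- a good family
  have hex : ∃ y : Fin J → V → Fin N, ¬ ∃ q ∈ (univ : Finset ((V × V) × (Fin N × Fin N))),
        ∃ Y ∈ powersetCard (lam + 1) (univ : Finset (Fin J)),
          q.1.1 ≠ q.1.2 ∧ ∀ j ∈ Y, y j q.1.1 = q.2.1 ∧ y j q.1.2 = q.2.2 := by
    by_contra hcon
    push Not at hcon
    have := nc_true (p := fun y : Fin J → V → Fin N =>
      ∃ q ∈ (univ : Finset ((V × V) × (Fin N × Fin N))),
        ∃ Y ∈ powersetCard (lam + 1) (univ : Finset (Fin J)),
          q.1.1 ≠ q.1.2 ∧ ∀ j ∈ Y, y j q.1.1 = q.2.1 ∧ y j q.1.2 = q.2.2) hcon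
    rw [this] at hbad
    exact lt_irrefl _ hbad
  obtain ⟨y, hy⟩ := hex
  refine ⟨y, fun u v huv a b => ?_⟩
  by_contra hcon
  push Not at hcon
  rw [nc_eq] at hcon
  obtain ⟨Y, hYsub, hYc⟩ := Finset.exists_subset_card_eq (Nat.succ_le_of_lt hcon)
  refine hy ⟨((u, v), (a, b)), Finset.mem_univ _, Y,
    Finset.mem_powersetCard.2 ⟨Finset.subset_univ _, hYc⟩, huv, fun j hj => ?_⟩
  exact (Finset.mem_filter.1 (hYsub hj)).2

/-- Many blocks such that every pair of vertices lies in at most `lam` of them. -/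
theorem exists_blocks {n N J lam : ℕ} (hn : Fintype.card V * N ≤ n)
    (hcount : (Fintype.card V * N) ^ 2 * J ^ (lam + 1) < N ^ (2 * (lam + 1))) :
    ∃ φ : Fin J → V ↪ Fin n, ∀ e : Sym2 (Fin n), ¬ e.IsDiag →
      nc (fun p : Fin J × Sym2 V => Sym2.map (φ p.1) p.2 = e) ≤ lam := by
  classical
  obtain ⟨y, hy⟩ := exists_code (V := V) hcount
  obtain ⟨ι⟩ : Nonempty (V × Fin N ↪ Fin n) := by
    rw [Function.Embedding.nonempty_iff_card_le, Fintype.card_prod, Fintype.card_fin,
      Fintype.card_fin]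
    exact hn
  let φ : Fin J → V ↪ Fin n := fun j => ⟨fun v => ι (v, y j v), fun u v huv =>
    (Prod.ext_iff.1 (ι.injective huv)).1⟩
  have hφ : ∀ j v, φ j v = ι (v, y j v) := fun _ _ => rfl
  refine ⟨φ, fun e he => ?_⟩
  by_cases hex : ∃ p : Fin J × Sym2 V, Sym2.map (φ p.1) p.2 = e
  · obtain ⟨⟨j₀, e₀⟩, hp⟩ := hex
    induction e₀ using Sym2.ind with
    | _ u v =>
      simp only [Sym2.map_mk] at hp
      have huv : u ≠ v := by
        rintro rfl
        exact he (hp ▸ Sym2.mk_isDiag_iff.2 rfl)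
      refine le_trans ?_ (hy u v huv (y j₀ u) (y j₀ v))
      rw [nc_eq, nc_eq]
      have hall : ∀ p : Fin J × Sym2 V, Sym2.map (φ p.1) p.2 = e →
          p.2 = s(u, v) ∧ y p.1 u = y j₀ u ∧ y p.1 v = y j₀ v := by
        rintro ⟨j, e'⟩ h
        induction e' using Sym2.ind with
        | _ u' v' =>
          simp only [Sym2.map_mk] at h
          rw [← hp, Sym2.eq_iff, hφ, hφ, hφ, hφ] at h
          rcases h with ⟨h1, h2⟩ | ⟨h1, h2⟩
          · have g1 := Prod.ext_iff.1 (ι.injective h1)
            have g2 := Prod.ext_iff.1 (ι.injective h2)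
            simp only at g1 g2
            obtain ⟨g1, g1'⟩ := g1
            obtain ⟨g2, g2'⟩ := g2
            subst g1
            subst g2
            exact ⟨rfl, g1', g2'⟩
          · have g1 := Prod.ext_iff.1 (ι.injective h1)
            have g2 := Prod.ext_iff.1 (ι.injective h2)
            simp only at g1 g2
            obtain ⟨g1, g1'⟩ := g1
            obtain ⟨g2, g2'⟩ := g2
            subst g1
            subst g2
            exact ⟨Sym2.eq_swap, g2', g1'⟩
      refine Finset.card_le_card_of_injOn Prod.fst ?_ ?_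
      · intro p hp'
        have h1 := (Finset.mem_filter.1 (Finset.mem_coe.1 hp')).2
        exact Finset.mem_coe.2 (Finset.mem_filter.2 ⟨Finset.mem_univ _, (hall p h1).2⟩)
      · intro p hp' p' hp'' hpp
        have h1 := (Finset.mem_filter.1 (Finset.mem_coe.1 hp')).2
        have h2 := (Finset.mem_filter.1 (Finset.mem_coe.1 hp'')).2
        exact Prod.ext hpp ((hall p h1).1.trans (hall p' h2).1.symm)
  · rw [nc_false fun p hp => hex ⟨p, hp⟩]
    exact Nat.zero_le _

end

end Pool.Agent.H25.NM
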