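import Pool.Agent.H25.NM.Block
import Pool.Agent.H25.NM.Count

/-!
The chain argument: a function of few monotone functions cannot see planted cliques in many
edge-disjoint blocks.
-/

namespace Pool.Agent.H25.NM

open Finset

set_option linter.unusedSectionVars false

section

variable {V Ω P ι : Type} [Fintype V] [Fintype Ω] [Fintype P] {n J : ℕ}

/-- The union of the first `j` blocks. -/
def pre (φ : Fin J → V ↪ Fin n) (R : Ω → SimpleGraph V) (ω : Fin J → Ω) (j : ℕ) :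
    SimpleGraph (Fin n) where
  Adj x y := ∃ i : Fin J, i.1 < j ∧ ((R (ω i)).map (φ i)).Adj x y
  symm := ⟨fun _ _ ⟨i, hi, h⟩ => ⟨i, hi, h.symm⟩⟩
  loopless := ⟨fun _ ⟨_, _, h⟩ => h.ne rfl⟩

variable {φ : Fin J → V ↪ Fin n} {R : Ω → SimpleGraph V} {A : P → Finset V}

theorem pre_mono (ω : Fin J → Ω) {j j' : ℕ} (h : j ≤ j') : pre φ R ω j ≤ pre φ R ω j' :=
  fun _ _ ⟨i, hi, h'⟩ => ⟨i, hi.trans_le h, h'⟩

theorem pre_succ (ω : Fin J → Ω) (j : Fin J) :
    pre φ R ω (j.1 + 1) = pre φ R ω j.1 ⊔ (R (ω j)).map (φ j) := by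
  ext x y
  rw [SimpleGraph.sup_adj]
  constructor
  · rintro ⟨i, hi, h⟩
    rcases Nat.lt_succ_iff_lt_or_eq.1 hi with hi | hi
    · exact Or.inl ⟨i, hi, h⟩
    · right
      have : i = j := Fin.ext hi
      rw [← this]
      exact h
  · rintro (⟨i, hi, h⟩ | h)
    · exact ⟨i, by omega, h⟩
    · exact ⟨j, by omega, h⟩

theorem pre_update (ω : Fin J → Ω) (j : Fin J) (y : Ω) :
    pre φ R (Function.update ω j y) j.1 = pre φ R ω j.1 := by
  ext a b
  constructor
  · rintro ⟨i, hi, h⟩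
    refine ⟨i, hi, ?_⟩
    rwa [Function.update_of_ne (by rintro rfl; exact lt_irrefl _ hi)] at h
  · rintro ⟨i, hi, h⟩
    refine ⟨i, hi, ?_⟩
    rwa [Function.update_of_ne (by rintro rfl; exact lt_irrefl _ hi)]

theorem nc_eq_sum_nat {α : Type} [Fintype α] (p : α → Prop) [DecidablePred p] :
    nc p = ∑ x, if p x then 1 else 0 := by
  rw [nc_eq, Finset.card_eq_sum_ones, Finset.sum_filter]

theorem nc_update (j : Fin J) (q : (Fin J → Ω) → Prop) :
    Fintype.card Ω * nc q = ∑ ω : Fin J → Ω, nc fun y => q (Function.update ω j y) := by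
  classical
  have := sum_update (R := ℕ) j fun ω : Fin J → Ω => if q ω then 1 else 0
  rw [nc_eq_sum_nat q, ← smul_eq_mul, ← this]
  refine Finset.sum_congr rfl fun ω _ => ?_
  rw [nc_eq_sum_nat]

theorem nc_update_prod (j : Fin J) (q : P → (Fin J → Ω) → Prop) :
    Fintype.card Ω * nc (fun x : P × (Fin J → Ω) => q x.1 x.2) =
      ∑ ω : Fin J → Ω, nc fun z : P × Ω => q z.1 (Function.update ω j z.2) := by
  rw [nc_prod, Finset.mul_sum]
  have h1 : ∀ p, Fintype.card Ω * nc (q p) =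
      ∑ ω : Fin J → Ω, nc fun y => q p (Function.update ω j y) := fun p => nc_update j (q p)
  rw [Finset.sum_congr rfl fun p _ => h1 p, Finset.sum_comm]
  refine Finset.sum_congr rfl fun ω _ => ?_
  exact (nc_prod fun p y => q p (Function.update ω j y)).symm

/-- Every monotone function changes at most once along a chain. -/
theorem sum_change_le {F : SimpleGraph (Fin n) → Prop} (hF : ∀ x y, x ≤ y → F x → F y) :
    ∑ j : Fin J, nc (fun ω : Fin J → Ω =>
      ¬ F (pre φ R ω j.1) ∧ F (pre φ R ω (j.1 + 1))) ≤ Fintype.card (Fin J → Ω) := by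
  classical
  have h1 := nc_prod fun (j : Fin J) (ω : Fin J → Ω) =>
    ¬ F (pre φ R ω j.1) ∧ F (pre φ R ω (j.1 + 1))
  rw [← h1]
  have h2 := nc_equiv (Equiv.prodComm (Fin J → Ω) (Fin J)) fun x : Fin J × (Fin J → Ω) =>
    ¬ F (pre φ R x.2 x.1.1) ∧ F (pre φ R x.2 (x.1.1 + 1))
  rw [← h2]
  have h3 := nc_prod fun (ω : Fin J → Ω) (j : Fin J) =>
    ¬ F (pre φ R ω j.1) ∧ F (pre φ R ω (j.1 + 1))
  refine (le_of_eq h3).trans ?_
  rw [← Finset.card_univ, Finset.card_eq_sum_ones]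
  refine Finset.sum_le_sum fun ω _ => ?_
  rw [nc_eq, Finset.card_le_one]
  intro a ha b hb
  rw [Finset.mem_filter] at ha hb
  rcases lt_trichotomy a.1 b.1 with h | h | h
  · exact absurd (hF _ _ (pre_mono ω h) ha.2.2) hb.2.1
  · exact Fin.ext h
  · exact absurd (hF _ _ (pre_mono ω h) hb.2.2) ha.2.1

/-- One function, one block. -/
theorem error_le [Nonempty Ω] {s : ℕ} {ε : ℝ} (hε : 0 ≤ ε)
    (BL : ∀ F : SimpleGraph V → Prop, MonoSize s F →
      (nc (fun x : P × Ω => F (cq (A x.1)) ∧ ¬ F (R x.2)) : ℝ) ≤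
        Fintype.card P * nc (fun ω => F (R ω)) + ε * (Fintype.card P * Fintype.card Ω))
    {F : SimpleGraph (Fin n) → Prop} (hF : MonoSize s F) (j : Fin J) :
    (nc (fun x : P × (Fin J → Ω) => F (pre φ R x.2 j.1 ⊔ (cq (A x.1)).map (φ j)) ∧
        ¬ F (pre φ R x.2 (j.1 + 1))) : ℝ) ≤
      Fintype.card P * nc (fun ω : Fin J → Ω =>
        ¬ F (pre φ R ω j.1) ∧ F (pre φ R ω (j.1 + 1))) +
      ε * (Fintype.card P * Fintype.card (Fin J → Ω)) := by
  have hΩ : (0 : ℝ) < Fintype.card Ω := by exact_mod_cast Fintype.card_pos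
  rw [← mul_le_mul_iff_right₀ hΩ]
  have h1 := nc_update_prod j fun (p : P) (ω : Fin J → Ω) =>
    F (pre φ R ω j.1 ⊔ (cq (A p)).map (φ j)) ∧ ¬ F (pre φ R ω (j.1 + 1))
  have h2 := nc_update j fun ω : Fin J → Ω => ¬ F (pre φ R ω j.1) ∧ F (pre φ R ω (j.1 + 1))
  have h1' : (Fintype.card Ω : ℝ) * nc (fun x : P × (Fin J → Ω) =>
      F (pre φ R x.2 j.1 ⊔ (cq (A x.1)).map (φ j)) ∧ ¬ F (pre φ R x.2 (j.1 + 1))) =
      ∑ ω : Fin J → Ω, (nc (fun z : P × Ω =>
        F (pre φ R (Function.update ω j z.2) j.1 ⊔ (cq (A z.1)).map (φ j)) ∧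
        ¬ F (pre φ R (Function.update ω j z.2) (j.1 + 1))) : ℝ) := by
    exact_mod_cast h1
  have h2' : (Fintype.card Ω : ℝ) * nc (fun ω : Fin J → Ω =>
      ¬ F (pre φ R ω j.1) ∧ F (pre φ R ω (j.1 + 1))) =
      ∑ ω : Fin J → Ω, (nc (fun y =>
        ¬ F (pre φ R (Function.update ω j y) j.1) ∧
        F (pre φ R (Function.update ω j y) (j.1 + 1))) : ℝ) := by
    exact_mod_cast h2
  rw [h1']
  have h3 : ∀ ω : Fin J → Ω, (nc (fun z : P × Ω =>
        F (pre φ R (Function.update ω j z.2) j.1 ⊔ (cq (A z.1)).map (φ j)) ∧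
        ¬ F (pre φ R (Function.update ω j z.2) (j.1 + 1))) : ℝ) ≤
      Fintype.card P * (nc (fun y =>
        ¬ F (pre φ R (Function.update ω j y) j.1) ∧
        F (pre φ R (Function.update ω j y) (j.1 + 1))) : ℝ) +
      ε * (Fintype.card P * Fintype.card Ω) := by
    intro ω
    have e1 : ∀ y, pre φ R (Function.update ω j y) (j.1 + 1) =
        pre φ R ω j.1 ⊔ (R y).map (φ j) := by
      intro y
      rw [pre_succ, pre_update, Function.update_self]
    simp only [e1, pre_update]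
    by_cases hG : F (pre φ R ω j.1)
    · rw [nc_false fun z hz => hz.2 (hF.mono le_sup_left hG)]
      simp only [Nat.cast_zero]
      positivity
    · have h4 := BL _ (hF.restrict (φ j) (pre φ R ω j.1))
      refine h4.trans (add_le_add_left (mul_le_mul_of_nonneg_left ?_ (by positivity)) _)
      exact_mod_cast (nc_congr fun y => by simp [hG]).le
  calc (∑ ω : Fin J → Ω, (nc (fun z : P × Ω =>
        F (pre φ R (Function.update ω j z.2) j.1 ⊔ (cq (A z.1)).map (φ j)) ∧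
        ¬ F (pre φ R (Function.update ω j z.2) (j.1 + 1))) : ℝ))
      ≤ ∑ ω : Fin J → Ω, (Fintype.card P * (nc (fun y =>
        ¬ F (pre φ R (Function.update ω j y) j.1) ∧
        F (pre φ R (Function.update ω j y) (j.1 + 1))) : ℝ) +
      ε * (Fintype.card P * Fintype.card Ω)) := Finset.sum_le_sum fun ω _ => h3 ω
    _ = Fintype.card Ω * (Fintype.card P * nc (fun ω : Fin J → Ω =>
        ¬ F (pre φ R ω j.1) ∧ F (pre φ R ω (j.1 + 1))) +
      ε * (Fintype.card P * Fintype.card (Fin J → Ω))) := by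
        rw [Finset.sum_add_distrib, ← Finset.mul_sum, ← h2', Finset.sum_const, nsmul_eq_mul,
          Finset.card_univ]
        ring

/-- **Chain theorem.** -/
theorem chain_bound [Nonempty Ω] [Nonempty P] {s : ℕ} {ε : ℝ} (hε : 0 ≤ ε)
    (BL : ∀ F : SimpleGraph V → Prop, MonoSize s F →
      (nc (fun x : P × Ω => F (cq (A x.1)) ∧ ¬ F (R x.2)) : ℝ) ≤
        Fintype.card P * nc (fun ω => F (R ω)) + ε * (Fintype.card P * Fintype.card Ω))
    (T : Finset ι) (M : ι → SimpleGraph (Fin n) → Prop) (hM : ∀ t ∈ T, MonoSize s (M t))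
    (f : SimpleGraph (Fin n) → Prop) (hf : ∀ x y, (∀ t ∈ T, M t x ↔ M t y) → (f x ↔ f y))
    (good : SimpleGraph (Fin n) → Prop) (hmono : ∀ x y, x ≤ y → good y → good x)
    (hneg : ∀ x, good x → ¬ f x)
    (hpos : ∀ (j : Fin J) (p : P) (G : SimpleGraph (Fin n)), f (G ⊔ (cq (A p)).map (φ j))) :
    (J : ℝ) * nc (fun ω : Fin J → Ω => good (pre φ R ω J)) ≤
      T.card * (2 + J * ε) * Fintype.card (Fin J → Ω) := by
  have hP : (0 : ℝ) < Fintype.card P := by exact_mod_cast Fintype.card_pos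
  have hMm : ∀ t ∈ T, ∀ x y, x ≤ y → M t x → M t y := fun t ht x y hxy hx => (hM t ht).mono hxy hx
  -- per block
  have h1 : ∀ j : Fin J, (Fintype.card P : ℝ) * nc (fun ω : Fin J → Ω => good (pre φ R ω J)) ≤
      ∑ t ∈ T, (2 * (Fintype.card P * nc (fun ω : Fin J → Ω =>
        ¬ M t (pre φ R ω j.1) ∧ M t (pre φ R ω (j.1 + 1)))) +
        ε * (Fintype.card P * Fintype.card (Fin J → Ω)) : ℝ) := by
    intro j
    have e1 : Fintype.card P * nc (fun ω : Fin J → Ω => good (pre φ R ω J)) =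
        nc (fun x : P × (Fin J → Ω) => True ∧ good (pre φ R x.2 J)) := by
      rw [nc_prod_and (fun _ : P => True) fun ω : Fin J → Ω => good (pre φ R ω J),
        nc_true fun _ => trivial]
    have e2 : nc (fun x : P × (Fin J → Ω) => True ∧ good (pre φ R x.2 J)) ≤
        nc (fun x : P × (Fin J → Ω) => ∃ t ∈ T,
          ((M t (pre φ R x.2 j.1 ⊔ (cq (A x.1)).map (φ j)) ∧ ¬ M t (pre φ R x.2 (j.1 + 1))) ∨
          (True ∧ ¬ M t (pre φ R x.2 j.1) ∧ M t (pre φ R x.2 (j.1 + 1))))) := by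
      refine nc_mono fun x hx => ?_
      by_contra hcon
      push Not at hcon
      have hne : ¬ f (pre φ R x.2 (j.1 + 1)) :=
        hneg _ (hmono _ _ (pre_mono x.2 j.2) hx.2)
      refine hne ((hf _ _ ?_).1 (hpos j x.1 (pre φ R x.2 j.1)))
      intro t ht
      obtain ⟨c1, c2⟩ := hcon t ht
      constructor
      · exact c1
      · intro h
        by_contra h'
        exact c2 trivial (fun h'' => h' (hMm t ht _ _ le_sup_left h'')) h
    have e3 : ∀ t ∈ T, (nc (fun x : P × (Fin J → Ω) =>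
          ((M t (pre φ R x.2 j.1 ⊔ (cq (A x.1)).map (φ j)) ∧ ¬ M t (pre φ R x.2 (j.1 + 1))) ∨
          (True ∧ ¬ M t (pre φ R x.2 j.1) ∧ M t (pre φ R x.2 (j.1 + 1))))) : ℝ) ≤
        (2 * (Fintype.card P * nc (fun ω : Fin J → Ω =>
        ¬ M t (pre φ R ω j.1) ∧ M t (pre φ R ω (j.1 + 1)))) +
        ε * (Fintype.card P * Fintype.card (Fin J → Ω)) : ℝ) := by
      intro t ht
      have g1 := error_le (φ := φ) hε BL (hM t ht) j
      have g2 : nc (fun x : P × (Fin J → Ω) =>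
          True ∧ ¬ M t (pre φ R x.2 j.1) ∧ M t (pre φ R x.2 (j.1 + 1))) =
          Fintype.card P * nc (fun ω : Fin J → Ω =>
            ¬ M t (pre φ R ω j.1) ∧ M t (pre φ R ω (j.1 + 1))) := by
        rw [nc_prod_and (fun _ : P => True) fun ω : Fin J → Ω =>
          ¬ M t (pre φ R ω j.1) ∧ M t (pre φ R ω (j.1 + 1)), nc_true fun _ => trivial]
      have g3 := nc_or_le (fun x : P × (Fin J → Ω) =>
        M t (pre φ R x.2 j.1 ⊔ (cq (A x.1)).map (φ j)) ∧ ¬ M t (pre φ R x.2 (j.1 + 1)))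
        (fun x : P × (Fin J → Ω) =>
          True ∧ ¬ M t (pre φ R x.2 j.1) ∧ M t (pre φ R x.2 (j.1 + 1)))
      rw [g2] at g3
      have g3' : (nc (fun x : P × (Fin J → Ω) =>
          ((M t (pre φ R x.2 j.1 ⊔ (cq (A x.1)).map (φ j)) ∧ ¬ M t (pre φ R x.2 (j.1 + 1))) ∨
          (True ∧ ¬ M t (pre φ R x.2 j.1) ∧ M t (pre φ R x.2 (j.1 + 1))))) : ℝ) ≤
          (nc (fun x : P × (Fin J → Ω) =>
          M t (pre φ R x.2 j.1 ⊔ (cq (A x.1)).map (φ j)) ∧ ¬ M t (pre φ R x.2 (j.1 + 1))) : ℝ) +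
          Fintype.card P * nc (fun ω : Fin J → Ω =>
            ¬ M t (pre φ R ω j.1) ∧ M t (pre φ R ω (j.1 + 1))) := by exact_mod_cast g3
      linarith
    calc (Fintype.card P : ℝ) * nc (fun ω : Fin J → Ω => good (pre φ R ω J))
        = (nc (fun x : P × (Fin J → Ω) => True ∧ good (pre φ R x.2 J)) : ℝ) := by
          exact_mod_cast e1
      _ ≤ ((∑ t ∈ T, nc (fun x : P × (Fin J → Ω) =>
          ((M t (pre φ R x.2 j.1 ⊔ (cq (A x.1)).map (φ j)) ∧ ¬ M t (pre φ R x.2 (j.1 + 1))) ∨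
          (True ∧ ¬ M t (pre φ R x.2 j.1) ∧ M t (pre φ R x.2 (j.1 + 1))))) : ℕ) : ℝ) := by
          have := e2.trans (nc_bex_le T fun t (x : P × (Fin J → Ω)) =>
            ((M t (pre φ R x.2 j.1 ⊔ (cq (A x.1)).map (φ j)) ∧ ¬ M t (pre φ R x.2 (j.1 + 1))) ∨
            (True ∧ ¬ M t (pre φ R x.2 j.1) ∧ M t (pre φ R x.2 (j.1 + 1)))))
          exact_mod_cast this
      _ ≤ _ := by
          push_cast
          exact Finset.sum_le_sum e3
  -- sum over the blocks
  have h2 : (J : ℝ) * (Fintype.card P * nc (fun ω : Fin J → Ω => good (pre φ R ω J))) ≤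
      ∑ j : Fin J, ∑ t ∈ T, (2 * (Fintype.card P * nc (fun ω : Fin J → Ω =>
        ¬ M t (pre φ R ω j.1) ∧ M t (pre φ R ω (j.1 + 1)))) +
        ε * (Fintype.card P * Fintype.card (Fin J → Ω)) : ℝ) := by
    have := Finset.sum_le_sum fun (j : Fin J) (_ : j ∈ univ) => h1 j
    rw [Finset.sum_const, nsmul_eq_mul, Finset.card_univ, Fintype.card_fin] at this
    exact this
  have h3 : ∑ j : Fin J, ∑ t ∈ T, (2 * (Fintype.card P * nc (fun ω : Fin J → Ω =>
        ¬ M t (pre φ R ω j.1) ∧ M t (pre φ R ω (j.1 + 1)))) +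
        ε * (Fintype.card P * Fintype.card (Fin J → Ω)) : ℝ) ≤
      T.card * ((2 + J * ε) * Fintype.card (Fin J → Ω)) * Fintype.card P := by
    rw [Finset.sum_comm]
    have h4 : ∀ t ∈ T, ∑ j : Fin J, (2 * (Fintype.card P * nc (fun ω : Fin J → Ω =>
        ¬ M t (pre φ R ω j.1) ∧ M t (pre φ R ω (j.1 + 1)))) +
        ε * (Fintype.card P * Fintype.card (Fin J → Ω)) : ℝ) ≤
        (2 + J * ε) * Fintype.card (Fin J → Ω) * Fintype.card P := by
      intro t ht
      rw [Finset.sum_add_distrib, Finset.sum_const, nsmul_eq_mul, Finset.card_univ,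
        Fintype.card_fin, ← Finset.mul_sum, ← Finset.mul_sum]
      have h5 : (∑ j : Fin J, (nc (fun ω : Fin J → Ω =>
        ¬ M t (pre φ R ω j.1) ∧ M t (pre φ R ω (j.1 + 1))) : ℝ)) ≤
          Fintype.card (Fin J → Ω) := by
        exact_mod_cast sum_change_le (φ := φ) (R := R) (hMm t ht)
      have h6 := mul_le_mul_of_nonneg_left h5 hP.le
      nlinarith
    refine (Finset.sum_le_sum h4).trans (le_of_eq ?_)
    rw [Finset.sum_const, nsmul_eq_mul]
    ring
  have h5 := h2.trans h3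
  rw [← mul_le_mul_iff_left₀ hP]
  linarith

end

end Pool.Agent.H25.NM
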