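import Pool.Agent.H25.NM.Mono

/-!
Circuits with few arbitrary gates, and the monotone functions obtained by fixing the values of
these gates.
-/

namespace Pool.Agent.H25.NM

/-- A circuit with `s` gates on graphs with vertex set `Fin n`, in topological order: gate `i`
computes the property `fn i` of the input graph. Each gate tests whether two fixed vertices are
adjacent, is constant, is the AND of two earlier gates or the OR of any set of earlier gates, or
is one of at most `r` special gates, which compute arbitrary functions of at most `t` earlier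
gates. -/
structure Circuit (n s r t : ℕ) where
  /-- the property computed by a gate -/
  fn : Fin s → SimpleGraph (Fin n) → Prop
  /-- the special gates -/
  special : Finset (Fin s)
  card_special : special.card ≤ r
  gate : ∀ i,
    (∃ u v, ∀ G, fn i G ↔ G.Adj u v) ∨
    (∀ G, fn i G) ∨ (∀ G, ¬ fn i G) ∨
    (∃ j k, j < i ∧ k < i ∧ ∀ G, fn i G ↔ (fn j G ∧ fn k G)) ∨
    (∃ S : Finset (Fin s), (∀ j ∈ S, j < i) ∧ ∀ G, fn i G ↔ ∃ j ∈ S, fn j G) ∨
    (i ∈ special ∧ ∃ S : Finset (Fin s), S.card ≤ t ∧ (∀ j ∈ S, j < i) ∧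
      ∀ G H, (∀ j ∈ S, fn j G ↔ fn j H) → (fn i G ↔ fn i H))

/-- Gate `i` is monotone: an input, a constant, an AND or an OR. -/
def Plain {n s : ℕ} (fn : Fin s → SimpleGraph (Fin n) → Prop) (i : Fin s) : Prop :=
  (∃ u v, ∀ G, fn i G ↔ G.Adj u v) ∨ (∀ G, fn i G) ∨ (∀ G, ¬ fn i G) ∨
      (∃ j k, j < i ∧ k < i ∧ ∀ G, fn i G ↔ (fn j G ∧ fn k G)) ∨
      (∃ S : Finset (Fin s), (∀ j ∈ S, j < i) ∧ ∀ G, fn i G ↔ ∃ j ∈ S, fn j G)

/-- For every assignment `β` of the gates in `X` there is a monotone program which computes the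
gates of the circuit as long as the gates in `X` have the values `β`. -/
theorem exists_program {n s : ℕ} (fn : Fin s → SimpleGraph (Fin n) → Prop)
    (X : Finset (Fin s)) (hX : ∀ i, i ∉ X → Plain fn i) (β : Fin s → Prop) :
    ∃ f : ℕ → SimpleGraph (Fin n) → Prop, (∀ i < s, MGate f i) ∧
      (∀ i : Fin s, ∀ x, (∀ l ∈ X, l ≤ i → (fn l x ↔ β l)) → (f i x ↔ fn i x)) := by
  classical
  suffices H : ∀ t ≤ s, ∃ f : ℕ → SimpleGraph (Fin n) → Prop, (∀ i < t, MGate f i) ∧
      (∀ i : Fin s, i.1 < t → ∀ x, (∀ l ∈ X, l ≤ i → (fn l x ↔ β l)) →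
        (f i x ↔ fn i x)) by
    obtain ⟨f, h1, h2⟩ := H s le_rfl
    exact ⟨f, h1, fun i x => h2 i i.2 x⟩
  intro t
  induction t with
  | zero =>
    intro _
    refine ⟨fun _ _ => True, ?_, ?_⟩
    · intro i hi
      omega
    · intro i hi
      omega
  | succ t ih =>
    intro ht
    obtain ⟨f, h1, h2⟩ := ih (by omega)
    have ht' : t < s := by omega
    obtain ⟨F, hF1, hF2⟩ : ∃ F : SimpleGraph (Fin n) → Prop,
        ((∃ u v, ∀ x, F x ↔ x.Adj u v) ∨ (∀ x, F x) ∨
          (∃ j k, j < t ∧ k < t ∧ ∀ x, F x ↔ (f j x ∧ f k x)) ∨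
          (∃ S : Finset ℕ, (∀ j ∈ S, j < t) ∧ ∀ x, F x ↔ ∃ j ∈ S, f j x)) ∧
        (∀ i : Fin s, i.1 = t → ∀ x, (∀ l ∈ X, l ≤ i → (fn l x ↔ β l)) → (F x ↔ fn i x)) := by
      have hfalse : ∀ F : SimpleGraph (Fin n) → Prop, (∀ x, ¬ F x) →
          ((∃ u v, ∀ x, F x ↔ x.Adj u v) ∨ (∀ x, F x) ∨
          (∃ j k, j < t ∧ k < t ∧ ∀ x, F x ↔ (f j x ∧ f k x)) ∨
          (∃ S : Finset ℕ, (∀ j ∈ S, j < t) ∧ ∀ x, F x ↔ ∃ j ∈ S, f j x)) := by
        intro F hF
        refine Or.inr (Or.inr (Or.inr ⟨∅, ?_, fun x => ?_⟩))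
        · intro j hj
          exact absurd hj (Finset.notMem_empty j)
        · constructor
          · intro hx
            exact absurd hx (hF x)
          · rintro ⟨j, hj, _⟩
            exact absurd hj (Finset.notMem_empty j)
      by_cases hs : (⟨t, ht'⟩ : Fin s) ∈ X
      · refine ⟨fun _ => β ⟨t, ht'⟩, ?_, ?_⟩
        · by_cases hb : β ⟨t, ht'⟩
          · exact Or.inr (Or.inl fun _ => hb)
          · exact hfalse _ fun _ => hb
        · intro i hi x hx
          obtain rfl : i = ⟨t, ht'⟩ := Fin.ext hi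
          exact (hx _ hs le_rfl).symm
      · have key : ∀ F : SimpleGraph (Fin n) → Prop,
            ((∃ u v, ∀ x, F x ↔ x.Adj u v) ∨ (∀ x, F x) ∨
              (∃ j k, j < t ∧ k < t ∧ ∀ x, F x ↔ (f j x ∧ f k x)) ∨
              (∃ S : Finset ℕ, (∀ j ∈ S, j < t) ∧ ∀ x, F x ↔ ∃ j ∈ S, f j x)) →
            (∀ x, (∀ l ∈ X, l ≤ (⟨t, ht'⟩ : Fin s) → (fn l x ↔ β l)) →
              (F x ↔ fn ⟨t, ht'⟩ x)) →
            ∃ F : SimpleGraph (Fin n) → Prop,
              ((∃ u v, ∀ x, F x ↔ x.Adj u v) ∨ (∀ x, F x) ∨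
                (∃ j k, j < t ∧ k < t ∧ ∀ x, F x ↔ (f j x ∧ f k x)) ∨
                (∃ S : Finset ℕ, (∀ j ∈ S, j < t) ∧ ∀ x, F x ↔ ∃ j ∈ S, f j x)) ∧
              (∀ i : Fin s, i.1 = t → ∀ x, (∀ l ∈ X, l ≤ i → (fn l x ↔ β l)) →
                (F x ↔ fn i x)) := by
          intro F hF hF'
          refine ⟨F, hF, ?_⟩
          intro i hi x hx
          obtain rfl : i = ⟨t, ht'⟩ := Fin.ext hi
          exact hF' x hx
        rcases hX ⟨t, ht'⟩ hs with ⟨u, v, h⟩ | h | h | ⟨j, k, hj, hk, h⟩ | ⟨S, hS, h⟩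
        · exact key (fun x => x.Adj u v) (Or.inl ⟨u, v, fun _ => Iff.rfl⟩)
            (fun x _ => (h x).symm)
        · exact key (fun x => True) (Or.inr (Or.inl fun _ => trivial))
            (fun x _ => ⟨fun _ => h x, fun _ => trivial⟩)
        · exact key (fun x => False) (hfalse _ fun _ => id)
            (fun x _ => ⟨fun h' => h'.elim, fun h' => h x h'⟩)
        · have hj' : j.1 < t := hj
          have hk' : k.1 < t := hk
          refine key (fun x => f j x ∧ f k x) (Or.inr (Or.inr (Or.inl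
            ⟨j, k, hj', hk', fun _ => Iff.rfl⟩))) (fun x hx => ?_)
          show f j x ∧ f k x ↔ _
          rw [h, h2 j hj' x fun l hl hlj => hx l hl (hlj.trans hj.le),
            h2 k hk' x fun l hl hlj => hx l hl (hlj.trans hk.le)]
        · refine key (fun x => ∃ j ∈ S, f j x) (Or.inr (Or.inr (Or.inr
            ⟨S.image Fin.val, ?_, fun x => ?_⟩))) (fun x hx => ?_)
          · intro j hj
            obtain ⟨j', hj', rfl⟩ := Finset.mem_image.1 hj
            exact hS j' hj'
          · constructor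
            · rintro ⟨j, hj, hx⟩
              exact ⟨j.1, Finset.mem_image_of_mem _ hj, hx⟩
            · rintro ⟨j, hj, hx⟩
              obtain ⟨j', hj', rfl⟩ := Finset.mem_image.1 hj
              exact ⟨j', hj', hx⟩
          · show (∃ j ∈ S, f j x) ↔ _
            rw [h]
            constructor
            · rintro ⟨j, hj, hx'⟩
              exact ⟨j, hj, (h2 j (hS j hj) x fun l hl hlj =>
                hx l hl (hlj.trans (hS j hj).le)).1 hx'⟩
            · rintro ⟨j, hj, hx'⟩
              exact ⟨j, hj, (h2 j (hS j hj) x fun l hl hlj =>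
                hx l hl (hlj.trans (hS j hj).le)).2 hx'⟩
    have hne : ∀ j, j < t → Function.update f t F j = f j := fun j hj =>
      Function.update_of_ne (by omega) _ _
    have heq : Function.update f t F t = F := Function.update_self _ _ _
    refine ⟨Function.update f t F, ?_, ?_⟩
    · intro i hi
      rcases Nat.lt_succ_iff_lt_or_eq.1 hi with hi | rfl
      · rcases h1 i hi with ⟨u, v, h⟩ | h | ⟨j, k, hj, hk, h⟩ | ⟨S, hS, h⟩
        · exact Or.inl ⟨u, v, by rw [hne i hi]; exact h⟩
        · exact Or.inr (Or.inl (by rw [hne i hi]; exact h))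
        · exact Or.inr (Or.inr (Or.inl ⟨j, k, hj, hk, by
            rw [hne i hi, hne j (hj.trans hi), hne k (hk.trans hi)]; exact h⟩))
        · refine Or.inr (Or.inr (Or.inr ⟨S, hS, fun x => ?_⟩))
          rw [hne i hi, h]
          constructor
          · rintro ⟨j, hj, hx⟩
            exact ⟨j, hj, by rw [hne j ((hS j hj).trans hi)]; exact hx⟩
          · rintro ⟨j, hj, hx⟩
            rw [hne j ((hS j hj).trans hi)] at hx
            exact ⟨j, hj, hx⟩
      · rcases hF1 with ⟨u, v, h⟩ | h | ⟨j, k, hj, hk, h⟩ | ⟨S, hS, h⟩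
        · exact Or.inl ⟨u, v, by rw [heq]; exact h⟩
        · exact Or.inr (Or.inl (by rw [heq]; exact h))
        · exact Or.inr (Or.inr (Or.inl ⟨j, k, hj, hk, by
            rw [heq, hne j hj, hne k hk]; exact h⟩))
        · refine Or.inr (Or.inr (Or.inr ⟨S, hS, fun x => ?_⟩))
          rw [heq, h]
          constructor
          · rintro ⟨j, hj, hx⟩
            exact ⟨j, hj, by rw [hne j (hS j hj)]; exact hx⟩
          · rintro ⟨j, hj, hx⟩
            rw [hne j (hS j hj)] at hx
            exact ⟨j, hj, hx⟩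
    · intro i hi x hx
      rcases Nat.lt_succ_iff_lt_or_eq.1 hi with hi | hi
      · rw [hne i hi]
        exact h2 i hi x hx
      · rw [hi, heq]
        exact hF2 i hi x hx

/-- The output of a circuit with few special gates is a function of few monotone functions of
small size. -/
theorem Circuit.exists_monotone_family {n s r t : ℕ} (C : Circuit n s r t) (out : Fin s) :
    ∃ (T : Finset (Finset (Fin s) × Fin s)) (M : Finset (Fin s) × Fin s →
        SimpleGraph (Fin n) → Prop), T.card ≤ 2 ^ r * (r * t + 1) ∧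
      (∀ t ∈ T, MonoSize s (M t)) ∧
      ∀ x y, (∀ t ∈ T, M t x ↔ M t y) → (C.fn out x ↔ C.fn out y) := by
  classical
  -- special gates that are of special type
  let P : Fin s → Finset (Fin s) → Prop := fun i S => S.card ≤ t ∧ (∀ j ∈ S, j < i) ∧
        ∀ G H, (∀ j ∈ S, C.fn j G ↔ C.fn j H) → (C.fn i G ↔ C.fn i H)
  let X : Finset (Fin s) := C.special.filter fun i => ∃ S, P i S
  have hXc : X.card ≤ r := (Finset.card_filter_le _ _).trans C.card_special
  have hX : ∀ i, i ∉ X → Plain C.fn i := by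
    intro i hi
    rcases C.gate i with h | h | h | h | h | ⟨h, h'⟩
    · exact Or.inl h
    · exact Or.inr (Or.inl h)
    · exact Or.inr (Or.inr (Or.inl h))
    · exact Or.inr (Or.inr (Or.inr (Or.inl h)))
    · exact Or.inr (Or.inr (Or.inr (Or.inr h)))
    · exact absurd (Finset.mem_filter.2 ⟨h, h'⟩) hi
  choose f hf1 hf2 using fun β : Finset (Fin s) => exists_program C.fn X hX (fun i => i ∈ β)
  let In : Fin s → Finset (Fin s) := fun i => if h : ∃ S, P i S then h.choose else ∅
  have hIn : ∀ i, (∃ S, P i S) → P i (In i) := by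
    intro i h
    show P i (if h : ∃ S, P i S then h.choose else ∅)
    rw [dif_pos h]
    exact h.choose_spec
  have hInc : ∀ i, (In i).card ≤ t := by
    intro i
    by_cases h : ∃ S, P i S
    · exact (hIn i h).1
    · show (if h : ∃ S, P i S then h.choose else ∅).card ≤ t
      rw [dif_neg h]
      simp
  let I : Finset (Fin s) := insert out (X.biUnion In)
  have hI : I.card ≤ r * t + 1 := by
    refine (Finset.card_insert_le _ _).trans ?_
    have h1 : (X.biUnion In).card ≤ X.card * t :=
      Finset.card_biUnion_le_card_mul _ _ _ fun i _ => hInc i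
    have h2 : X.card * t ≤ r * t := Nat.mul_le_mul_right _ hXc
    omega
  refine ⟨X.powerset ×ˢ I, fun t x => f t.1 t.2 x, ?_, ?_, ?_⟩
  · rw [Finset.card_product, Finset.card_powerset]
    exact Nat.mul_le_mul (Nat.pow_le_pow_right (by norm_num) hXc) hI
  · rintro ⟨β, i⟩ _
    exact ⟨f β, hf1 β, i, i.2, fun x => Iff.rfl⟩
  · intro x y hxy
    -- the values of the special gates at x
    let β : Finset (Fin s) := X.filter fun i => C.fn i x
    have hβ : β ∈ X.powerset := Finset.mem_powerset.2 (Finset.filter_subset _ _)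
    have hβx : ∀ l ∈ X, (C.fn l x ↔ l ∈ β) := by
      intro l hl
      simp [β, hl]
    have hx : ∀ i : Fin s, f β i x ↔ C.fn i x := fun i => hf2 β i x fun l hl _ => hβx l hl
    have hy : ∀ m : ℕ, ∀ l ∈ X, l.1 < m → (C.fn l y ↔ l ∈ β) := by
      intro m
      induction m with
      | zero =>
        intro l _ hl
        omega
      | succ m ih =>
        intro l hl hlm
        have hP := hIn l (Finset.mem_filter.1 hl).2
        rw [← hβx l hl]
        refine (hP.2.2 y x ?_)
        intro j hj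
        have hjl : j < l := hP.2.1 j hj
        have hjl' : j.1 < l.1 := hjl
        have h1 : f β j y ↔ C.fn j y := by
          refine hf2 β j y fun l' hl' hl'j => ih l' hl' ?_
          have : l'.1 ≤ j.1 := hl'j
          omega
        rw [← h1, ← hx j]
        exact (hxy (β, j) (Finset.mem_product.2 ⟨hβ, Finset.mem_insert_of_mem
          (Finset.mem_biUnion.2 ⟨l, hl, hj⟩)⟩)).symm
    have h1 : f β out y ↔ C.fn out y := hf2 β out y fun l hl _ => hy s l hl l.2
    rw [← h1, ← hx out]
    exact hxy (β, out) (Finset.mem_product.2 ⟨hβ, Finset.mem_insert_self _ _⟩)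

end Pool.Agent.H25.NM
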