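import Pool.Agent.H25.NM.Chain

/-!
Random graphs with independent edges: the union of the blocks seldom contains a clique.
-/

namespace Pool.Agent.H25.NM

open Finset

set_option linter.unusedSectionVars false

section

variable {V A₀ : Type} [Fintype V] [DecidableEq V] [Fintype A₀] {n J : ℕ}

/-- The graph with an edge wherever the label lies in `S₀`. -/
def gr (S₀ : Finset A₀) (ω : Sym2 V → A₀) : SimpleGraph V where
  Adj u v := u ≠ v ∧ ω s(u, v) ∈ S₀
  symm := ⟨fun u v h => ⟨h.1.symm, by rw [Sym2.eq_swap]; exact h.2⟩⟩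
  loopless := ⟨fun _ h => h.1 rfl⟩

theorem nc_forall_mem_gen {I : Type} [Fintype I] [DecidableEq I] (I₀ : Finset I)
    (S : I → Finset A₀) :
    nc (fun x : I → A₀ => ∀ i ∈ I₀, x i ∈ S i) * Fintype.card A₀ ^ I₀.card =
      (∏ i ∈ I₀, (S i).card) * Fintype.card A₀ ^ Fintype.card I := by
  classical
  have h1 : (univ.filter fun x : I → A₀ => ∀ i ∈ I₀, x i ∈ S i) =
      Fintype.piFinset fun i => if i ∈ I₀ then S i else univ := by
    ext x
    simp only [mem_filter, mem_univ, true_and, Fintype.mem_piFinset]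
    constructor
    · intro h i
      by_cases hi : i ∈ I₀
      · rw [if_pos hi]
        exact h i hi
      · rw [if_neg hi]
        exact mem_univ _
    · intro h i hi
      have := h i
      rwa [if_pos hi] at this
  rw [nc_eq, h1, Fintype.card_piFinset]
  have h2 : ∀ i, (if i ∈ I₀ then S i else (univ : Finset A₀)).card =
      if i ∈ I₀ then (S i).card else Fintype.card A₀ := by
    intro i
    by_cases hi : i ∈ I₀
    · rw [if_pos hi, if_pos hi]
    · rw [if_neg hi, if_neg hi, card_univ]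
  rw [Finset.prod_congr rfl fun i _ => h2 i]
  rw [Finset.prod_ite]
  have h3 : (univ.filter fun i => i ∈ I₀) = I₀ := by
    ext i
    simp
  rw [h3, Finset.prod_const, mul_assoc, ← pow_add]
  congr 2
  have h4 : (univ.filter fun i => i ∉ I₀) = I₀ᶜ := by
    ext i
    simp
  rw [h4, Finset.card_compl]
  have := Finset.card_le_univ I₀
  omega

theorem nc_forall_mem {I : Type} [Fintype I] [DecidableEq I] (I₀ : Finset I) (S₀ : Finset A₀) :
    nc (fun x : I → A₀ => ∀ i ∈ I₀, x i ∈ S₀) * Fintype.card A₀ ^ I₀.card =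
      S₀.card ^ I₀.card * Fintype.card (I → A₀) := by
  have h := nc_forall_mem_gen I₀ fun _ => S₀
  rw [Finset.prod_const, ← Fintype.card_fun] at h
  exact h

theorem nc_clique_le (φ : Fin J → V ↪ Fin n) (lam : ℕ)
    (hφ : ∀ e : Sym2 (Fin n), ¬ e.IsDiag →
      nc (fun p : Fin J × Sym2 V => Sym2.map (φ p.1) p.2 = e) ≤ lam)
    (S₀ : Finset A₀) (U : Finset (Fin n)) :
    nc (fun ω : Fin J → (Sym2 V → A₀) => (pre φ (gr S₀) ω J).IsClique U) *
      Fintype.card A₀ ^ (U.card.choose 2) ≤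
      lam ^ (U.card.choose 2) *
        (S₀.card ^ (U.card.choose 2) * Fintype.card (Fin J → (Sym2 V → A₀))) := by
  classical
  let E : Finset (Sym2 (Fin n)) := U.offDiag.image Sym2.mk.uncurry
  have hE : E.card = U.card.choose 2 := Sym2.card_image_offDiag U
  have hmem : ∀ x y, s(x, y) ∈ E → x ∈ U ∧ y ∈ U ∧ x ≠ y := by
    intro x y h
    obtain ⟨⟨a, b⟩, hab, h⟩ := Finset.mem_image.1 h
    rw [Finset.mem_offDiag] at hab
    rcases Sym2.eq_iff.1 h with ⟨rfl, rfl⟩ | ⟨rfl, rfl⟩
    · exact hab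
    · exact ⟨hab.2.1, hab.1, hab.2.2.symm⟩
  have hdiag : ∀ e ∈ E, ¬ e.IsDiag := by
    intro e he hd
    induction e using Sym2.ind with
    | _ x y =>
      exact (hmem x y he).2.2 (Sym2.mk_isDiag_iff.1 hd)
  -- the possible positions of an edge
  let Pos : {e // e ∈ E} → Finset (Fin J × Sym2 V) := fun e =>
    univ.filter fun p => Sym2.map (φ p.1) p.2 = e.1
  have hPos : ∀ e, (Pos e).card ≤ lam := by
    intro e
    have := hφ e.1 (hdiag e.1 e.2)
    rw [nc_eq] at this
    exact this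
  have hcover : nc (fun ω : Fin J → (Sym2 V → A₀) => (pre φ (gr S₀) ω J).IsClique U) ≤
      ∑ g ∈ Fintype.piFinset Pos, nc (fun ω : Fin J → (Sym2 V → A₀) =>
        ∀ e : {e // e ∈ E}, ω (g e).1 (g e).2 ∈ S₀) := by
    refine le_trans (nc_mono fun ω hω => ?_) (nc_bex_le (Fintype.piFinset Pos) fun g
      (ω : Fin J → (Sym2 V → A₀)) => ∀ e : {e // e ∈ E}, ω (g e).1 (g e).2 ∈ S₀)
    have hex : ∀ e : {e // e ∈ E}, ∃ p ∈ Pos e, ω p.1 p.2 ∈ S₀ := by
      rintro ⟨e, he⟩
      induction e using Sym2.ind with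
      | _ x y =>
        obtain ⟨hx, hy, hxy⟩ := hmem x y he
        obtain ⟨i, _, hadj⟩ := hω hx hy hxy
        rw [SimpleGraph.map_adj] at hadj
        obtain ⟨u, v, huv, hu, hv⟩ := hadj
        refine ⟨(i, s(u, v)), Finset.mem_filter.2 ⟨Finset.mem_univ _, ?_⟩, huv.2⟩
        rw [Sym2.map_mk, hu, hv]
    choose g hg hg' using hex
    exact ⟨g, Fintype.mem_piFinset.2 hg, hg'⟩
  have hone : ∀ g ∈ Fintype.piFinset Pos, nc (fun ω : Fin J → (Sym2 V → A₀) =>
        ∀ e : {e // e ∈ E}, ω (g e).1 (g e).2 ∈ S₀) * Fintype.card A₀ ^ (U.card.choose 2) =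
      S₀.card ^ (U.card.choose 2) * Fintype.card (Fin J → (Sym2 V → A₀)) := by
    intro g hg
    rw [Fintype.mem_piFinset] at hg
    have hinj : Function.Injective g := by
      intro a b hab
      have h1 := (Finset.mem_filter.1 (hg a)).2
      have h2 := (Finset.mem_filter.1 (hg b)).2
      apply Subtype.ext
      rw [← h1, ← h2, hab]
    have hcard : (univ.image g).card = U.card.choose 2 := by
      rw [Finset.card_image_of_injective _ hinj, Finset.card_univ, Fintype.card_coe, hE]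
    have h2 := nc_equiv (Equiv.curry (Fin J) (Sym2 V) A₀).symm
      fun x : Fin J × Sym2 V → A₀ => ∀ i ∈ univ.image g, x i ∈ S₀
    have h3 := nc_forall_mem (univ.image g) S₀
    rw [hcard] at h3
    have h4 : Fintype.card (Fin J × Sym2 V → A₀) = Fintype.card (Fin J → Sym2 V → A₀) :=
      Fintype.card_congr (Equiv.curry (Fin J) (Sym2 V) A₀)
    rw [← h4, ← h3, ← h2]
    congr 1
    refine nc_congr fun ω => ?_
    constructor
    · intro h i hi
      obtain ⟨e, _, rfl⟩ := Finset.mem_image.1 hi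
      exact h e
    · intro h e
      exact h (g e) (Finset.mem_image_of_mem g (Finset.mem_univ e))
  calc nc (fun ω : Fin J → (Sym2 V → A₀) => (pre φ (gr S₀) ω J).IsClique U) *
      Fintype.card A₀ ^ (U.card.choose 2)
      ≤ (∑ g ∈ Fintype.piFinset Pos, nc (fun ω : Fin J → (Sym2 V → A₀) =>
        ∀ e : {e // e ∈ E}, ω (g e).1 (g e).2 ∈ S₀)) * Fintype.card A₀ ^ (U.card.choose 2) :=
        Nat.mul_le_mul_right _ hcover
    _ = ∑ g ∈ Fintype.piFinset Pos,
        S₀.card ^ (U.card.choose 2) * Fintype.card (Fin J → (Sym2 V → A₀)) := by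
        rw [Finset.sum_mul]
        exact Finset.sum_congr rfl hone
    _ = (Fintype.piFinset Pos).card *
        (S₀.card ^ (U.card.choose 2) * Fintype.card (Fin J → (Sym2 V → A₀))) := by
        rw [Finset.sum_const, smul_eq_mul]
    _ ≤ _ := by
        refine Nat.mul_le_mul_right _ ?_
        rw [Fintype.card_piFinset]
        refine (Finset.prod_le_pow_card _ _ lam fun e _ => hPos e).trans (le_of_eq ?_)
        rw [Finset.card_univ, Fintype.card_coe, hE]

theorem nc_not_cliqueFree_le (φ : Fin J → V ↪ Fin n) (lam : ℕ)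
    (hφ : ∀ e : Sym2 (Fin n), ¬ e.IsDiag →
      nc (fun p : Fin J × Sym2 V => Sym2.map (φ p.1) p.2 = e) ≤ lam)
    (S₀ : Finset A₀) (k : ℕ) :
    nc (fun ω : Fin J → (Sym2 V → A₀) => ¬ (pre φ (gr S₀) ω J).CliqueFree k) *
      Fintype.card A₀ ^ (k.choose 2) ≤
      n.choose k * (lam ^ (k.choose 2) *
        (S₀.card ^ (k.choose 2) * Fintype.card (Fin J → (Sym2 V → A₀)))) := by
  classical
  have h1 : nc (fun ω : Fin J → (Sym2 V → A₀) => ¬ (pre φ (gr S₀) ω J).CliqueFree k) ≤
      ∑ U ∈ powersetCard k (univ : Finset (Fin n)),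
        nc (fun ω : Fin J → (Sym2 V → A₀) => (pre φ (gr S₀) ω J).IsClique U) := by
    refine le_trans (nc_mono fun ω hω => ?_) (nc_bex_le _ _)
    unfold SimpleGraph.CliqueFree at hω
    push Not at hω
    obtain ⟨U, hU⟩ := hω
    exact ⟨U, Finset.mem_powersetCard.2 ⟨Finset.subset_univ _, hU.card_eq⟩, hU.isClique⟩
  calc nc (fun ω : Fin J → (Sym2 V → A₀) => ¬ (pre φ (gr S₀) ω J).CliqueFree k) *
      Fintype.card A₀ ^ (k.choose 2)
      ≤ (∑ U ∈ powersetCard k (univ : Finset (Fin n)),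
        nc (fun ω : Fin J → (Sym2 V → A₀) => (pre φ (gr S₀) ω J).IsClique U)) *
        Fintype.card A₀ ^ (k.choose 2) := Nat.mul_le_mul_right _ h1
    _ = ∑ U ∈ powersetCard k (univ : Finset (Fin n)),
        nc (fun ω : Fin J → (Sym2 V → A₀) => (pre φ (gr S₀) ω J).IsClique U) *
        Fintype.card A₀ ^ (k.choose 2) := Finset.sum_mul _ _ _
    _ ≤ ∑ U ∈ powersetCard k (univ : Finset (Fin n)),
        lam ^ (k.choose 2) *
          (S₀.card ^ (k.choose 2) * Fintype.card (Fin J → (Sym2 V → A₀))) := by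
        refine Finset.sum_le_sum fun U hU => ?_
        have hk := (Finset.mem_powersetCard.1 hU).2
        have := nc_clique_le φ lam hφ S₀ U
        rwa [hk] at this
    _ = _ := by
        rw [Finset.sum_const, Finset.card_powersetCard, Finset.card_univ, Fintype.card_fin,
          smul_eq_mul]

end

end Pool.Agent.H25.NM
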