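import Pool.Agent.H25.NM.Circuit

/-!
A circuit separating graphs with a `k`-clique from graphs without an `l`-clique has to test edges
at almost all vertices.
-/

namespace Pool.Agent.H25.NM

theorem Circuit.lt_of_separates {n s r t k l : ℕ} (hl : 2 ≤ l) (C : Circuit n s r t)
    (out : Fin s) (h1 : ∀ G : SimpleGraph (Fin n), ¬ G.CliqueFree k → C.fn out G)
    (h2 : ∀ G : SimpleGraph (Fin n), G.CliqueFree l → ¬ C.fn out G) : n < 2 * s + k := by
  classical
  by_contra hcon
  push Not at hcon
  -- the vertices at which edges are tested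
  let P : Fin s → Prop := fun i => ∃ u v, ∀ G, C.fn i G ↔ G.Adj u v
  let E : Fin s → Finset (Fin n) := fun i => if h : P i then {h.choose, h.choose_spec.choose} else ∅
  have hE : ∀ i, P i → ∃ u v, u ∈ E i ∧ v ∈ E i ∧ ∀ G, C.fn i G ↔ G.Adj u v := by
    intro i h
    refine ⟨h.choose, h.choose_spec.choose, ?_, ?_, h.choose_spec.choose_spec⟩
    · show _ ∈ (if h : P i then ({h.choose, h.choose_spec.choose} : Finset (Fin n)) else ∅)
      rw [dif_pos h]
      exact Finset.mem_insert_self _ _
    · show _ ∈ (if h : P i then ({h.choose, h.choose_spec.choose} : Finset (Fin n)) else ∅)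
      rw [dif_pos h]
      exact Finset.mem_insert_of_mem (Finset.mem_singleton_self _)
  have hEc : ∀ i, (E i).card ≤ 2 := by
    intro i
    by_cases h : P i
    · show (if h : P i then ({h.choose, h.choose_spec.choose} : Finset (Fin n)) else ∅).card ≤ 2
      rw [dif_pos h]
      exact Finset.card_le_two
    · show (if h : P i then ({h.choose, h.choose_spec.choose} : Finset (Fin n)) else ∅).card ≤ 2
      rw [dif_neg h]
      simp
  let U : Finset (Fin n) := Finset.univ.biUnion E
  have hU : U.card ≤ 2 * s := by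
    have h3 : (Finset.univ.biUnion E).card ≤ (Finset.univ : Finset (Fin s)).card * 2 :=
      Finset.card_biUnion_le_card_mul _ _ _ fun i _ => hEc i
    rw [Finset.card_univ, Fintype.card_fin] at h3
    have h4 : U.card ≤ s * 2 := h3
    omega
  have hUc : k ≤ Uᶜ.card := by
    rw [Finset.card_compl, Fintype.card_fin]
    omega
  obtain ⟨K, hK, hKc⟩ := Finset.exists_subset_card_eq hUc
  let G : SimpleGraph (Fin n) :=
    { Adj := fun x y => x ≠ y ∧ x ∈ K ∧ y ∈ K
      symm := ⟨fun x y h => ⟨h.1.symm, h.2.2, h.2.1⟩⟩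
      loopless := ⟨fun x h => h.1 rfl⟩ }
  have hG : ¬ G.CliqueFree k := by
    intro h
    refine h K ⟨?_, hKc⟩
    intro x hx y hy hxy
    exact ⟨hxy, hx, hy⟩
  have key : ∀ m : ℕ, ∀ i : Fin s, i.1 < m → (C.fn i G ↔ C.fn i ⊥) := by
    intro m
    induction m with
    | zero =>
      intro i hi
      omega
    | succ m ih =>
      intro i hi
      have ih' : ∀ j : Fin s, j < i → (C.fn j G ↔ C.fn j ⊥) := by
        intro j hj
        have : j.1 < i.1 := hj
        exact ih j (by omega)
      by_cases hP : P i
      · obtain ⟨u, v, hu, _, h⟩ := hE i hP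
        rw [h, h]
        constructor
        · intro h'
          have h'' : u ∈ K := h'.2.1
          have h3 := Finset.mem_compl.1 (hK h'')
          exact absurd (Finset.mem_biUnion.2 ⟨i, Finset.mem_univ _, hu⟩) h3
        · intro h'
          exact h'.elim
      · rcases C.gate i with h | h | h | ⟨j, k, hj, hk, h⟩ | ⟨S, hS, h⟩ | ⟨_, S, _, hS, h⟩
        · exact absurd h hP
        · exact ⟨fun _ => h _, fun _ => h _⟩
        · exact ⟨fun h' => absurd h' (h _), fun h' => absurd h' (h _)⟩
        · rw [h, h, ih' j hj, ih' k hk]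
        · rw [h, h]
          constructor
          · rintro ⟨j, hj, h'⟩
            exact ⟨j, hj, (ih' j (hS j hj)).1 h'⟩
          · rintro ⟨j, hj, h'⟩
            exact ⟨j, hj, (ih' j (hS j hj)).2 h'⟩
        · exact h _ _ fun j hj => ih' j (hS j hj)
  have h5 := (key s out out.2).1 (h1 G hG)
  exact h2 ⊥ (SimpleGraph.cliqueFree_bot hl) h5

end Pool.Agent.H25.NM
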