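import Pool.Agent.H25.NM.Asymp
import Pool.Agent.H25.NM.Trivial

/-!
Circuits with few arbitrary gates that separate graphs with a `k`-clique from graphs without an
`l`-clique.
-/

namespace Pool.Agent.H25.NM

open Finset Filter

theorem main {k l : ℕ} {μ : ℝ} (hl : 2 ≤ l) (hlk : l ≤ k) (hμ0 : 0 ≤ μ) (hμ2 : μ < 2) :
    ∃ n₀ : ℕ, ∀ n ≥ n₀, ∀ s r t : ℕ, ((t : ℝ) + 1) * 2 ^ r ≤ (n : ℝ) ^ μ →
      ∀ (C : Circuit n s r t) (out : Fin s),
        (∀ G : SimpleGraph (Fin n), ¬ G.CliqueFree k → C.fn out G) →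
        (∀ G : SimpleGraph (Fin n), G.CliqueFree l → ¬ C.fn out G) →
        (n : ℝ) ^ ((2 - μ) ^ 2 * ((l : ℝ) - 1) / 16 - 5 * μ / 4) ≤ s := by
  set δ : ℝ := 2 - μ with hδ
  have hδ0 : 0 < δ := by
    rw [hδ]
    linarith
  set L' : ℝ := (l : ℝ) - 1 with hL'
  have hL'1 : 1 ≤ L' := by
    have : (2 : ℝ) ≤ l := by exact_mod_cast hl
    rw [hL']
    linarith
  have hL'0 : 0 < L' := by linarith
  set y : ℝ := δ * L' with hy
  have hye : δ ^ 2 * L' = δ * y := by
    rw [hy]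
    ring
  rcases le_or_gt y 4 with hy4 | hy4
  · -- small exponent
    refine ⟨max 1 (16 * (k + 1)), fun n hn s r t _ C out h1 h2 => ?_⟩
    have hn1 : 1 ≤ n := (le_max_left _ _).trans hn
    have hnk : 16 * (k + 1) ≤ n := (le_max_right _ _).trans hn
    have hn1R : (1 : ℝ) ≤ n := by exact_mod_cast hn1
    have hn0 : (0 : ℝ) < n := by linarith
    have h3 := C.lt_of_separates hl out h1 h2
    have h3R : (n : ℝ) < 2 * s + k := by exact_mod_cast h3
    have hnkR : 16 * ((k : ℝ) + 1) ≤ n := by exact_mod_cast hnk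
    have h4 : δ ^ 2 * L' / 16 - 5 * μ / 4 ≤ 1 / 2 := by
      rw [hye]
      have : δ * y ≤ δ * 4 := mul_le_mul_of_nonneg_left hy4 hδ0.le
      rw [hδ] at this ⊢
      linarith
    refine (Real.rpow_le_rpow_of_exponent_le hn1R h4).trans ?_
    have h5 : (n : ℝ) ^ (1 / 2 : ℝ) * (n : ℝ) ^ (1 / 2 : ℝ) = n := by
      rw [← Real.rpow_add hn0]
      norm_num
    have h6 : (0 : ℝ) < (n : ℝ) ^ (1 / 2 : ℝ) := by positivity
    have h7 : (4 : ℝ) ≤ (n : ℝ) ^ (1 / 2 : ℝ) := by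
      by_contra hcon
      push Not at hcon
      have : (n : ℝ) < 16 := by
        rw [← h5]
        nlinarith
      have hk0 : (0 : ℝ) ≤ k := by positivity
      linarith
    have h8 : 4 * (n : ℝ) ^ (1 / 2 : ℝ) ≤ n := by
      calc 4 * (n : ℝ) ^ (1 / 2 : ℝ) ≤ (n : ℝ) ^ (1 / 2 : ℝ) * (n : ℝ) ^ (1 / 2 : ℝ) :=
            mul_le_mul_of_nonneg_right h7 h6.le
        _ = n := h5
    have hk0 : (0 : ℝ) ≤ k := by positivity
    linarith
  · -- the parameters
    set m : ℕ := max 2 ⌊y / 4⌋₊ with hm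
    have hm2 : 2 ≤ m := le_max_left _ _
    have hm2R : (2 : ℝ) ≤ m := by exact_mod_cast hm2
    set θ : ℝ := y / 4 - m with hθ
    have hθ1 : -1 < θ := by
      rw [hθ, hm]
      rcases le_total 2 ⌊y / 4⌋₊ with h | h
      · rw [max_eq_right h]
        have := Nat.floor_le (a := y / 4) (by linarith)
        linarith
      · rw [max_eq_left h]
        push_cast
        linarith
    have hθ2 : θ ≤ 1 := by
      rw [hθ, hm]
      have h1 := (Nat.lt_floor_add_one (y / 4)).le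
      have h2 : (⌊y / 4⌋₊ : ℝ) ≤ ((max 2 ⌊y / 4⌋₊ : ℕ) : ℝ) := by
        exact_mod_cast le_max_right _ _
      linarith
    have hmy : (m : ℝ) = y / 4 - θ := by
      rw [hθ]
      ring
    have hgap0 : ((m : ℝ) - 1) * (2 / L') < δ / 2 := by
      have h1 : (m : ℝ) - 1 < y / 4 := by linarith
      calc ((m : ℝ) - 1) * (2 / L') < y / 4 * (2 / L') :=
            mul_lt_mul_of_pos_right h1 (by positivity)
        _ = δ / 2 := by
            rw [hy]
            field_simp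
            ring
    set γ : ℝ := δ / 2 - ((m : ℝ) - 1) * (2 / L') with hγ
    have hγ0 : 0 < γ := by
      rw [hγ]
      linarith
    set ε : ℝ := min (1 / (4 * (2 * (m : ℝ) ^ 2 + 2 * m + 1))) (γ / (2 * m)) with hε
    have hε0 : 0 < ε := by
      rw [hε]
      exact lt_min (by positivity) (by positivity)
    have hε2 : ε * (2 * (m : ℝ) ^ 2 + 2 * m + 1) ≤ 1 / 4 := by
      have h1 : ε ≤ 1 / (4 * (2 * (m : ℝ) ^ 2 + 2 * m + 1)) := min_le_left _ _
      calc ε * (2 * (m : ℝ) ^ 2 + 2 * m + 1) ≤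
            1 / (4 * (2 * (m : ℝ) ^ 2 + 2 * m + 1)) * (2 * (m : ℝ) ^ 2 + 2 * m + 1) :=
            mul_le_mul_of_nonneg_right h1 (by positivity)
        _ = 1 / 4 := by
            have : (2 * (m : ℝ) ^ 2 + 2 * m + 1) ≠ 0 := by positivity
            field_simp
    have hgap : ((m : ℝ) - 1) * (2 / L') + m * ε < (2 - μ) / 2 := by
      have h1 : ε ≤ γ / (2 * m) := min_le_right _ _
      have h2 : (m : ℝ) * ε ≤ γ / 2 := by
        calc (m : ℝ) * ε ≤ m * (γ / (2 * m)) := mul_le_mul_of_nonneg_left h1 (by positivity)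
          _ = γ / 2 := by
              field_simp
      have h3 : (2 - μ) / 2 = γ + ((m : ℝ) - 1) * (2 / L') := by
        rw [hγ]
        ring
      linarith
    have hmhalf : (m : ℝ) - 3 / 2 ≤ (2 - μ) * ((l : ℝ) - 1) / 4 := by
      have : (2 - μ) * ((l : ℝ) - 1) = y := rfl
      rw [this]
      linarith
    set e : ℝ := δ ^ 2 * L' / 16 - 5 * μ / 4 with he
    have hee : e + μ + 1 / 2 ≤ ((m : ℝ) + 1) * ((2 - μ) / 2) - ((m : ℝ) ^ 2 + m - 2) / ((l : ℝ) - 1) := by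
      show e + μ + 1 / 2 ≤ ((m : ℝ) + 1) * (δ / 2) - ((m : ℝ) ^ 2 + m - 2) / L'
      have h1 : e + μ + 1 / 2 = (y ^ 2 / 16 + y / 4) / L' := by
        rw [he, hy, eq_div_iff hL'0.ne']
        have : μ = 2 - δ := by
          rw [hδ]
          ring
        rw [this]
        ring
      have h2 : ((m : ℝ) + 1) * (δ / 2) - ((m : ℝ) ^ 2 + m - 2) / L' =
          (((m : ℝ) + 1) * (y / 2) - ((m : ℝ) ^ 2 + m - 2)) / L' := by
        rw [hy]
        field_simp
      rw [h1, h2]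
      refine div_le_div_of_nonneg_right ?_ hL'0.le
      rw [hmy]
      nlinarith
    have hev := (asymp_core hl hlk hm2 hμ0 hμ2 hmhalf hε0 hgap hε2 hee).and
      ((ev_log 26 1 (r := ε) hε0).and (eventually_ge_atTop 2))
    obtain ⟨n₀, hn₀⟩ := eventually_atTop.1 hev
    refine ⟨n₀, fun n hn s r t hr C out h1 h2 => ?_⟩
    obtain ⟨h3, h4, hn2⟩ := hn₀ n hn
    have hn2R : (2 : ℝ) ≤ n := by exact_mod_cast hn2
    have hn0 : (0 : ℝ) < n := by linarith
    have hn1 : (1 : ℝ) ≤ n := by linarith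
    by_contra hcon
    push Not at hcon
    obtain ⟨T, M, hTc, hM, hsep⟩ := C.exists_monotone_family out
    have h6 := h3 _ s T M (C.fn out) hcon.le hM hsep h1 h2
    -- the number of special gates
    have ht0 : (0 : ℝ) ≤ t := by positivity
    have hlog : 0 ≤ Real.log n := Real.log_nonneg hn1
    have hr2 : (r : ℝ) ≤ 4 * Real.log n := by
      have e1 : (2 : ℝ) ^ r ≤ (n : ℝ) ^ (2 : ℝ) := by
        calc (2 : ℝ) ^ r ≤ ((t : ℝ) + 1) * 2 ^ r :=
              le_mul_of_one_le_left (by positivity) (by linarith)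
          _ ≤ (n : ℝ) ^ μ := hr
          _ ≤ (n : ℝ) ^ (2 : ℝ) := Real.rpow_le_rpow_of_exponent_le hn1 hμ2.le
      have e2 := Real.log_le_log (by positivity) e1
      rw [Real.log_pow, Real.log_rpow hn0] at e2
      have e3 : (1 / 2 : ℝ) ≤ Real.log 2 := by
        have := Real.log_two_gt_d9
        linarith
      have e4 : (r : ℝ) * (1 / 2) ≤ r * Real.log 2 := mul_le_mul_of_nonneg_left e3 (by positivity)
      linarith
    have hTR : (T.card : ℝ) ≤ (n : ℝ) ^ μ * (4 * (Real.log n + 1)) := by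
      have e1 : (T.card : ℝ) ≤ 2 ^ r * (r * t + 1) := by exact_mod_cast hTc
      have e2 : (r : ℝ) * t + 1 ≤ (t + 1) * (r + 1) := by
        have : (0 : ℝ) ≤ r := by positivity
        linarith
      calc (T.card : ℝ) ≤ 2 ^ r * (r * t + 1) := e1
        _ ≤ 2 ^ r * ((t + 1) * (r + 1)) := mul_le_mul_of_nonneg_left e2 (by positivity)
        _ = (((t : ℝ) + 1) * 2 ^ r) * (r + 1) := by ring
        _ ≤ (n : ℝ) ^ μ * (4 * (Real.log n + 1)) := by
            refine mul_le_mul hr (by linarith) (by positivity) (by positivity)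
    have h7 : (n : ℝ) ^ (μ + ε) < (n : ℝ) ^ μ * (24 * (Real.log n + 1)) + 1 := by
      calc (n : ℝ) ^ (μ + ε) < ⌊(n : ℝ) ^ (μ + ε)⌋₊ + 1 := Nat.lt_floor_add_one _
        _ ≤ 6 * T.card + 1 := by
            have : (⌊(n : ℝ) ^ (μ + ε)⌋₊ : ℝ) ≤ 6 * T.card := by exact_mod_cast h6
            linarith
        _ ≤ 6 * ((n : ℝ) ^ μ * (4 * (Real.log n + 1))) + 1 := by linarith
        _ = _ := by ring
    have h8 : (n : ℝ) ^ (μ + ε) = (n : ℝ) ^ μ * (n : ℝ) ^ ε := Real.rpow_add hn0 _ _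
    rw [h8] at h7
    rw [pow_one] at h4
    have h9 : (1 : ℝ) ≤ (n : ℝ) ^ μ := Real.one_le_rpow hn1 hμ0
    have h10 : (n : ℝ) ^ μ * (26 * (Real.log n + 1)) ≤ (n : ℝ) ^ μ * (n : ℝ) ^ ε :=
      mul_le_mul_of_nonneg_left h4 (by linarith)
    nlinarith

end Pool.Agent.H25.NM
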