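import Pool.Agent.H25.NM.Moment

/-!
Closed families for sparse random graphs (a union of `L` rounds of density `1/Q`) have few
minimal members.
-/

namespace Pool.Agent.H25.NM

open Finset

set_option linter.unusedSectionVars false

section

variable {V : Type} [Fintype V] [DecidableEq V]

/-- One round: second moment. -/
theorem one_round (Fm : Finset (Finset V)) (B : Finset V) (b Q : ℕ) [NeZero Q] {Λ : ℝ}
    (hΛ : 1 ≤ Λ) (hF : ∀ T ∈ Fm, T.card = b ∧ B ⊆ T)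
    (hmax : ∀ C, B ⊂ C → C.card ≤ b → ((Fm.filter fun T => C ⊆ T).card : ℝ) ≤
      Λ ^ (b - C.card) * (Q : ℝ) ^ (b.choose 2 - C.card.choose 2))
    (hbig : Λ ^ (b - B.card) * (Q : ℝ) ^ (b.choose 2 - B.card.choose 2) < Fm.card)
    (h32 : (1 + 1 / Λ) ^ (b - B.card) ≤ 3 / 2) :
    3 * nc (fun ρ : Sym2 V → Fin Q => ∀ T ∈ Fm, ∃ e ∈ ed T \ ed B, ρ e ≠ 0) ≤
      Fintype.card (Sym2 V → Fin Q) := by
  classical
  have hQ : (1 : ℝ) ≤ Q := by
    exact_mod_cast Nat.one_le_iff_ne_zero.2 (NeZero.ne Q)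
  have hQ0 : (0 : ℝ) < Q := by linarith
  have hΛ0 : (0 : ℝ) < Λ := by linarith
  have hFm : (0 : ℝ) < Fm.card := lt_of_le_of_lt (by positivity) hbig
  set K : ℝ := (Fintype.card (Sym2 V → Fin Q) : ℝ) with hK
  have hK0 : 0 < K := by
    rw [hK]
    exact_mod_cast Fintype.card_pos
  set d := b.choose 2 - B.card.choose 2 with hd
  -- counting
  have hcount : ∀ U : Finset (Sym2 V), (nc (fun ρ : Sym2 V → Fin Q => ∀ e ∈ U, ρ e = 0) : ℝ) =
      K / (Q : ℝ) ^ U.card := by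
    intro U
    have h1 := nc_forall_eq U (fun _ => (0 : Fin Q))
    rw [Fintype.card_fin] at h1
    have h2 : Fintype.card (Sym2 V → Fin Q) = Q ^ Fintype.card (Sym2 V) := by
      rw [Fintype.card_fun, Fintype.card_fin]
    rw [eq_div_iff (by positivity), hK, h2]
    exact_mod_cast h1
  let X : (Sym2 V → Fin Q) → ℝ := fun ρ =>
    ∑ T ∈ Fm, if ∀ e ∈ ed T \ ed B, ρ e = 0 then (1 : ℝ) else 0
  have hsum1 : ∑ ρ, X ρ = Fm.card * (K / (Q : ℝ) ^ d) := by
    show ∑ ρ : Sym2 V → Fin Q, ∑ T ∈ Fm, (if ∀ e ∈ ed T \ ed B, ρ e = 0 then (1 : ℝ) else 0) = _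
    rw [Finset.sum_comm]
    have h1 : ∀ T ∈ Fm, ∑ ρ : Sym2 V → Fin Q,
        (if ∀ e ∈ ed T \ ed B, ρ e = 0 then (1 : ℝ) else 0) = K / (Q : ℝ) ^ d := by
      intro T hT
      have h2 := hcount (ed T \ ed B)
      rw [card_ed_sdiff (hF T hT).2, (hF T hT).1, nc_eq_sum_nat] at h2
      rw [← h2]
      push_cast
      rfl
    rw [Finset.sum_congr rfl h1, Finset.sum_const, nsmul_eq_mul]
  have hsum2 : ∑ ρ, X ρ ^ 2 ≤ 3 / 2 * (Fm.card : ℝ) ^ 2 * (K / (Q : ℝ) ^ (2 * d)) := by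
    have h1 : ∀ ρ : Sym2 V → Fin Q, X ρ ^ 2 = ∑ T ∈ Fm, ∑ T' ∈ Fm,
        if ∀ e ∈ (ed T \ ed B) ∪ (ed T' \ ed B), ρ e = 0 then (1 : ℝ) else 0 := by
      intro ρ
      show (∑ T ∈ Fm, if ∀ e ∈ ed T \ ed B, ρ e = 0 then (1 : ℝ) else 0) ^ 2 = _
      rw [sq, Finset.sum_mul_sum]
      refine Finset.sum_congr rfl fun T _ => Finset.sum_congr rfl fun T' _ => ?_
      by_cases c1 : ∀ e ∈ ed T \ ed B, ρ e = 0
      · by_cases c2 : ∀ e ∈ ed T' \ ed B, ρ e = 0
        · have c3 : ∀ e ∈ (ed T \ ed B) ∪ (ed T' \ ed B), ρ e = 0 := by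
            intro e he
            rcases Finset.mem_union.1 he with he | he
            · exact c1 e he
            · exact c2 e he
          rw [if_pos c1, if_pos c2, if_pos c3]
          norm_num
        · have c3 : ¬ ∀ e ∈ (ed T \ ed B) ∪ (ed T' \ ed B), ρ e = 0 := fun h =>
            c2 fun e he => h e (Finset.mem_union_right _ he)
          rw [if_neg c2, if_neg c3, mul_zero]
      · have c3 : ¬ ∀ e ∈ (ed T \ ed B) ∪ (ed T' \ ed B), ρ e = 0 := fun h =>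
          c1 fun e he => h e (Finset.mem_union_left _ he)
        rw [if_neg c1, if_neg c3, zero_mul]
    rw [Finset.sum_congr rfl fun ρ _ => h1 ρ, Finset.sum_comm]
    have h2 : ∀ T ∈ Fm, ∑ ρ : Sym2 V → Fin Q, ∑ T' ∈ Fm,
        (if ∀ e ∈ (ed T \ ed B) ∪ (ed T' \ ed B), ρ e = 0 then (1 : ℝ) else 0) ≤
        3 / 2 * Fm.card * (K / (Q : ℝ) ^ (2 * d)) := by
      intro T hT
      rw [Finset.sum_comm]
      have h3 : ∀ T' ∈ Fm, ∑ ρ : Sym2 V → Fin Q,
          (if ∀ e ∈ (ed T \ ed B) ∪ (ed T' \ ed B), ρ e = 0 then (1 : ℝ) else 0) =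
          K / (Q : ℝ) ^ (2 * d) * (Q : ℝ) ^ ((T ∩ T').card.choose 2 - B.card.choose 2) := by
        intro T' hT'
        have h4 := hcount ((ed T \ ed B) ∪ (ed T' \ ed B))
        rw [nc_eq_sum_nat] at h4
        have h5 := card_union_ed (hF T hT).2 (hF T' hT').2 (hF T hT).1 (hF T' hT').1
        rw [← hd] at h5
        rw [← h5, pow_add]
        rw [div_mul_eq_mul_div, mul_comm ((Q : ℝ) ^ ((ed T \ ed B) ∪ (ed T' \ ed B)).card),
          ← div_div, mul_div_assoc, div_self (by positivity), mul_one, ← h4]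
        push_cast
        rfl
      rw [Finset.sum_congr rfl h3, ← Finset.mul_sum]
      have h6 := link_sum_le Fm B b hQ hΛ hF hmax hbig.le h32 hT
      calc K / (Q : ℝ) ^ (2 * d) * ∑ T' ∈ Fm, (Q : ℝ) ^ ((T ∩ T').card.choose 2 - B.card.choose 2)
          ≤ K / (Q : ℝ) ^ (2 * d) * (3 / 2 * Fm.card) :=
            mul_le_mul_of_nonneg_left h6 (by positivity)
        _ = _ := by ring
    refine (Finset.sum_le_sum h2).trans (le_of_eq ?_)
    rw [Finset.sum_const, nsmul_eq_mul]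
    ring
  -- Cauchy-Schwarz
  set S := univ.filter fun ρ : Sym2 V → Fin Q => X ρ ≠ 0 with hS
  have hcs : (∑ ρ ∈ S, X ρ) ^ 2 ≤ S.card * ∑ ρ ∈ S, X ρ ^ 2 := sq_sum_le_card_mul_sum_sq
  have hs1 : ∑ ρ ∈ S, X ρ = ∑ ρ, X ρ := by
    rw [hS, Finset.sum_filter_ne_zero]
  have hs2 : ∑ ρ ∈ S, X ρ ^ 2 ≤ ∑ ρ, X ρ ^ 2 :=
    Finset.sum_le_sum_of_subset_of_nonneg (Finset.subset_univ _) fun ρ _ _ => sq_nonneg _
  rw [hs1, hsum1] at hcs
  have hcs2 : (Fm.card * (K / (Q : ℝ) ^ d)) ^ 2 ≤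
      S.card * (3 / 2 * (Fm.card : ℝ) ^ 2 * (K / (Q : ℝ) ^ (2 * d))) :=
    hcs.trans (mul_le_mul_of_nonneg_left (hs2.trans hsum2) (by positivity))
  have hcs3 : 2 * K ≤ 3 * S.card := by
    have e1 : (Fm.card * (K / (Q : ℝ) ^ d)) ^ 2 =
        ((Fm.card : ℝ) ^ 2 * (K / (Q : ℝ) ^ (2 * d))) * K := by
      rw [mul_comm 2 d, pow_mul]
      field_simp
    have e2 : S.card * (3 / 2 * (Fm.card : ℝ) ^ 2 * (K / (Q : ℝ) ^ (2 * d))) =
        ((Fm.card : ℝ) ^ 2 * (K / (Q : ℝ) ^ (2 * d))) * (3 / 2 * S.card) := by ring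
    rw [e1, e2] at hcs2
    have := le_of_mul_le_mul_left hcs2 (by positivity)
    linarith
  -- conclusion
  have hnc : nc (fun ρ : Sym2 V → Fin Q => ∀ T ∈ Fm, ∃ e ∈ ed T \ ed B, ρ e ≠ 0) + S.card ≤
      Fintype.card (Sym2 V → Fin Q) := by
    have h1 : nc (fun ρ : Sym2 V → Fin Q => ∀ T ∈ Fm, ∃ e ∈ ed T \ ed B, ρ e ≠ 0) ≤
        nc (fun ρ => ¬ X ρ ≠ 0) := by
      refine nc_mono fun ρ hρ => ?_
      rw [not_not]
      refine Finset.sum_eq_zero fun T hT => ?_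
      obtain ⟨e, he, hne⟩ := hρ T hT
      rw [if_neg]
      intro h
      exact hne (h e he)
    have h2 := nc_add_nc_not fun ρ : Sym2 V → Fin Q => X ρ ≠ 0
    have h3 : nc (fun ρ : Sym2 V → Fin Q => X ρ ≠ 0) = S.card := by
      rw [hS, nc_eq]
    omega
  have hnc' : (nc (fun ρ : Sym2 V → Fin Q => ∀ T ∈ Fm, ∃ e ∈ ed T \ ed B, ρ e ≠ 0) : ℝ) +
      S.card ≤ K := by
    rw [hK]
    exact_mod_cast hnc
  have : (3 * nc (fun ρ : Sym2 V → Fin Q => ∀ T ∈ Fm, ∃ e ∈ ed T \ ed B, ρ e ≠ 0) : ℝ) ≤ K := by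
    linarith
  rw [hK] at this
  exact_mod_cast this

/-- product of independent rounds -/
theorem nc_forall_fin {α : Type} [Fintype α] (L : ℕ) (p : α → Prop) :
    nc (fun x : Fin L → α => ∀ l, p (x l)) = nc p ^ L := by
  classical
  rw [nc_eq, nc_eq]
  have : (univ.filter fun x : Fin L → α => ∀ l, p (x l)) =
      Fintype.piFinset fun _ => univ.filter p := by
    ext x
    simp
  rw [this, Fintype.card_piFinset, Finset.prod_const, Finset.card_univ, Fintype.card_fin]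

/-- The labels with a zero. -/
def zset (L Q : ℕ) [NeZero Q] : Finset (Fin L → Fin Q) := univ.filter fun x => ∃ l, x l = 0

/-- **Few minimal members above a given set, sparse case.** -/
theorem card_mins_sparse (L Q m : ℕ) [NeZero Q] {Λ : ℝ} (hΛ : 1 ≤ Λ)
    (h32 : (1 + 1 / Λ) ^ m ≤ 3 / 2) (S : Finset (Finset V))
    (hS : Closed (gr (zset L Q) : (Sym2 V → (Fin L → Fin Q)) → SimpleGraph V) (3 ^ L) m S)
    (b : ℕ) (hb : b ≤ m) (I : Finset V) :
    (((mins S b).filter fun T => I ⊆ T).card : ℝ) ≤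
      Λ ^ (b - I.card) * (Q : ℝ) ^ (b.choose 2 - I.card.choose 2) := by
  classical
  by_contra hcon
  push Not at hcon
  have hQ : (1 : ℝ) ≤ Q := by
    exact_mod_cast Nat.one_le_iff_ne_zero.2 (NeZero.ne Q)
  have hQ0 : (0 : ℝ) < Q := by linarith
  have hΛ0 : (0 : ℝ) < Λ := by linarith
  let lk : Finset V → Finset (Finset V) := fun B => (mins S b).filter fun T => B ⊆ T
  let 𝓑 : Finset (Finset V) := univ.filter fun B => B.card ≤ b ∧
    Λ ^ (b - B.card) * (Q : ℝ) ^ (b.choose 2 - B.card.choose 2) < (lk B).card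
  have hI : I.card ≤ b := by
    have h1 : (0 : ℝ) < ((mins S b).filter fun T => I ⊆ T).card :=
      lt_of_le_of_lt (by positivity) hcon
    have h2 : 0 < ((mins S b).filter fun T => I ⊆ T).card := by exact_mod_cast h1
    obtain ⟨T, hT⟩ := Finset.card_pos.1 h2
    obtain ⟨h3, h4⟩ := Finset.mem_filter.1 hT
    rw [← (mem_mins.1 h3).2.1]
    exact Finset.card_le_card h4
  have h𝓑 : 𝓑.Nonempty := ⟨I, Finset.mem_filter.2 ⟨Finset.mem_univ _, hI, hcon⟩⟩
  obtain ⟨B, hB, hBmax⟩ := Finset.exists_max_image 𝓑 Finset.card h𝓑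
  obtain ⟨_, hBb, hbig⟩ := Finset.mem_filter.1 hB
  have hF : ∀ T ∈ lk B, T.card = b ∧ B ⊆ T := by
    intro T hT
    obtain ⟨h1, h2⟩ := Finset.mem_filter.1 hT
    exact ⟨(mem_mins.1 h1).2.1, h2⟩
  have hBlt : B.card < b := by
    rcases lt_or_eq_of_le hBb with h | h
    · exact h
    · exfalso
      rw [h, Nat.sub_self, Nat.sub_self, pow_zero, pow_zero, one_mul] at hbig
      have h1 : (lk B).card ≤ 1 := by
        rw [Finset.card_le_one]
        intro T hT T' hT'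
        have e1 := Finset.eq_of_subset_of_card_le (hF T hT).2 (by rw [(hF T hT).1, h])
        have e2 := Finset.eq_of_subset_of_card_le (hF T' hT').2 (by rw [(hF T' hT').1, h])
        rw [← e1, ← e2]
      have h2 : ((lk B).card : ℝ) ≤ 1 := by exact_mod_cast h1
      linarith
  have hmax : ∀ C, B ⊂ C → C.card ≤ b → (((lk B).filter fun T => C ⊆ T).card : ℝ) ≤
      Λ ^ (b - C.card) * (Q : ℝ) ^ (b.choose 2 - C.card.choose 2) := by
    intro C hC hCb
    by_contra hcon'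
    push Not at hcon'
    have h1 : ((lk B).filter fun T => C ⊆ T) ⊆ lk C := by
      intro T hT
      obtain ⟨h1, h2⟩ := Finset.mem_filter.1 hT
      exact Finset.mem_filter.2 ⟨(Finset.mem_filter.1 h1).1, h2⟩
    have h2 : (((lk B).filter fun T => C ⊆ T).card : ℝ) ≤ (lk C).card := by
      exact_mod_cast Finset.card_le_card h1
    have h3 : C ∈ 𝓑 := Finset.mem_filter.2 ⟨Finset.mem_univ _, hCb, hcon'.trans_le h2⟩
    have h4 := hBmax C h3
    have h5 := Finset.card_lt_card hC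
    omega
  have h32' : (1 + 1 / Λ) ^ (b - B.card) ≤ 3 / 2 := by
    refine le_trans (pow_le_pow_right₀ ?_ (by omega)) h32
    have : (0 : ℝ) ≤ 1 / Λ := by positivity
    linarith
  have hround := one_round (lk B) B b Q hΛ hF hmax hbig h32'
  -- all rounds
  have hBS : B ∈ S := by
    refine hS.2 B (by omega) ?_
    have h1 : nc (fun ω : Sym2 V → (Fin L → Fin Q) => ¬ D S (gr (zset L Q) ω ⊔ cq B)) ≤
        nc (fun ω : Sym2 V → (Fin L → Fin Q) => ∀ l, ∀ T ∈ lk B, ∃ e ∈ ed T \ ed B,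
          (Equiv.piComm (fun (_ : Sym2 V) (_ : Fin L) => Fin Q) ω) l e ≠ 0) := by
      refine nc_mono fun ω hω l T hT => ?_
      by_contra hcon'
      push Not at hcon'
      refine hω ⟨T, (mem_mins.1 (Finset.mem_filter.1 hT).1).1, ?_⟩
      intro u v huv
      rw [SimpleGraph.sup_adj]
      by_cases hB2 : u ∈ B ∧ v ∈ B
      · exact Or.inr ⟨huv.1, hB2.1, hB2.2⟩
      · left
        refine ⟨huv.1, Finset.mem_filter.2 ⟨Finset.mem_univ _, l, ?_⟩⟩
        refine hcon' s(u, v) (Finset.mem_sdiff.2 ⟨mem_ed.2 huv, fun h => hB2 ?_⟩)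
        exact (mem_ed.1 h).2
    have h2 := nc_equiv (Equiv.piComm (fun (_ : Sym2 V) (_ : Fin L) => Fin Q))
      fun x : Fin L → (Sym2 V → Fin Q) => ∀ l, ∀ T ∈ lk B, ∃ e ∈ ed T \ ed B, x l e ≠ 0
    rw [h2, nc_forall_fin L fun ρ : Sym2 V → Fin Q => ∀ T ∈ lk B, ∃ e ∈ ed T \ ed B, ρ e ≠ 0] at h1
    calc 3 ^ L * nc (fun ω : Sym2 V → (Fin L → Fin Q) => ¬ D S (gr (zset L Q) ω ⊔ cq B))
        ≤ 3 ^ L * nc (fun ρ : Sym2 V → Fin Q => ∀ T ∈ lk B, ∃ e ∈ ed T \ ed B, ρ e ≠ 0) ^ L :=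
          Nat.mul_le_mul_left _ h1
      _ = (3 * nc (fun ρ : Sym2 V → Fin Q => ∀ T ∈ lk B, ∃ e ∈ ed T \ ed B, ρ e ≠ 0)) ^ L :=
          (mul_pow _ _ _).symm
      _ ≤ Fintype.card (Sym2 V → Fin Q) ^ L := Nat.pow_le_pow_left hround L
      _ = Fintype.card (Sym2 V → (Fin L → Fin Q)) := by
          rw [Fintype.card_congr (Equiv.piComm (fun (_ : Sym2 V) (_ : Fin L) => Fin Q)),
            Fintype.card_fun (α := Fin L), Fintype.card_fin]
  -- contradiction with minimality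
  have hne : (lk B).Nonempty := by
    rw [← Finset.card_pos]
    have : (0 : ℝ) < (lk B).card := lt_of_le_of_lt (by positivity) hbig
    exact_mod_cast this
  obtain ⟨T, hT⟩ := hne
  have hTm := (mem_mins.1 (Finset.mem_filter.1 hT).1).2
  have hBT : B = T := hTm.2 B hBS (hF T hT).2
  rw [hBT, hTm.1] at hBlt
  exact lt_irrefl _ hBlt

end

end Pool.Agent.H25.NM
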