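import Pool.Agent.H25.NM.Sparse
import Pool.Agent.H25.NM.Blocks
import Pool.Agent.H25.NM.Circuit

/-!
The finite form of the bound for sparse test graphs.
-/

namespace Pool.Agent.H25.NM

open Finset

set_option linter.unusedSectionVars false

theorem two_mul_choose_two (b : ℕ) : 2 * b.choose 2 = (b - 1) * b := by
  rw [Nat.choose_two_right, Nat.mul_div_cancel']
  · ring
  · rcases Nat.even_or_odd b with h | h
    · exact Dvd.dvd.mul_right h.two_dvd _
    · obtain ⟨c, rfl⟩ := h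
      exact Dvd.dvd.mul_left (by simp) _

theorem card_zset_mul_ge (L Q : ℕ) [NeZero Q] (hL : 1 ≤ L) :
    Q ^ L ≤ (zset L Q).card * Q := by
  classical
  have h1 := nc_forall_eq (A := Fin Q) ({(⟨0, hL⟩ : Fin L)} : Finset (Fin L)) fun _ => 0
  rw [Finset.card_singleton, pow_one, Fintype.card_fin, Fintype.card_fin] at h1
  rw [← h1]
  refine Nat.mul_le_mul_right _ ?_
  unfold zset
  rw [← nc_eq]
  exact nc_mono fun x hx => ⟨_, hx _ (Finset.mem_singleton_self _)⟩

theorem card_zset_mul_le (L Q : ℕ) [NeZero Q] : (zset L Q).card * Q ≤ L * Q ^ L := by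
  classical
  have h1 : (zset L Q).card ≤ ∑ l : Fin L, nc (fun x : Fin L → Fin Q => x l = 0) := by
    unfold zset
    rw [← nc_eq]
    refine le_trans (nc_mono fun x hx => ?_) (nc_bex_le univ fun (l : Fin L)
      (x : Fin L → Fin Q) => x l = 0)
    obtain ⟨l, hl⟩ := hx
    exact ⟨l, Finset.mem_univ _, hl⟩
  have h2 : ∀ l : Fin L, nc (fun x : Fin L → Fin Q => x l = 0) * Q = Q ^ L := by
    intro l
    have h1 := nc_forall_eq (A := Fin Q) ({l} : Finset (Fin L)) fun _ => 0
    rw [Finset.card_singleton, pow_one, Fintype.card_fin, Fintype.card_fin] at h1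
    rw [← h1]
    congr 1
    exact nc_congr fun x => by simp
  calc (zset L Q).card * Q ≤ (∑ l : Fin L, nc (fun x : Fin L → Fin Q => x l = 0)) * Q :=
        Nat.mul_le_mul_right _ h1
    _ = ∑ l : Fin L, Q ^ L := by
        rw [Finset.sum_mul]
        exact Finset.sum_congr rfl fun l _ => h2 l
    _ = L * Q ^ L := by
        rw [Finset.sum_const, Finset.card_univ, Fintype.card_fin, smul_eq_mul]

theorem small_le (V : Type) [Fintype V] (m : ℕ) : small V m ≤ (Fintype.card V + 1) ^ m := by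
  classical
  unfold small
  -- a set with at most m elements is the range of a function from Fin m to Option V
  have h : ((univ : Finset (Finset V)).filter fun T => T.card ≤ m) ⊆
      (univ : Finset (Fin m → Option V)).image
        fun f => (univ : Finset V).filter fun v => ∃ i, f i = some v := by
    intro T hT
    have hT := (Finset.mem_filter.1 hT).2
    rw [Finset.mem_image]
    refine ⟨fun i => if h : i.1 < T.card then some ((T.equivFin.symm ⟨i.1, h⟩ : T) : V) else none,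
      Finset.mem_univ _, ?_⟩
    ext v
    rw [Finset.mem_filter]
    constructor
    · rintro ⟨_, i, hi⟩
      beta_reduce at hi
      by_cases h : i.1 < T.card
      · rw [dif_pos h, Option.some.injEq] at hi
        rw [← hi]
        exact (T.equivFin.symm ⟨i.1, h⟩).2
      · rw [dif_neg h] at hi
        exact absurd hi (by simp)
    · intro hv
      refine ⟨Finset.mem_univ _, ⟨(T.equivFin ⟨v, hv⟩).1, (T.equivFin ⟨v, hv⟩).2.trans_le hT⟩, ?_⟩
      simp
  refine (Finset.card_le_card h).trans (Finset.card_image_le.trans ?_)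
  rw [Finset.card_univ, Fintype.card_fun, Fintype.card_fin, Fintype.card_option]

section

variable {k w L Q : ℕ} [NeZero Q]

/-- the sparse test graphs satisfy the hypotheses of the block lemma -/
theorem blockHyp_sparse (m : ℕ) (hL : 1 ≤ L) (hw : 1 ≤ w) {Λ η : ℝ} (hΛ : 1 ≤ Λ) (hη : 0 ≤ η)
    (h32 : (1 + 1 / Λ) ^ m ≤ 3 / 2) (hc : 2 * Λ * (Q : ℝ) ^ (m - 1) ≤ w)
    (hE : ∀ a ≤ m, ∀ j ≤ m, ∀ i ≤ a, i ≤ j → m < a + j - i →
      Λ ^ (a + j - i) * (Q : ℝ) ^ (a.choose 2 + (j.choose 2 - i.choose 2)) ≤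
        η * (w : ℝ) ^ (a + j - i)) :
    BlockHyp (gr (zset L Q) : (Sym2 (Fin k × Fin w) → (Fin L → Fin Q)) →
      SimpleGraph (Fin k × Fin w)) (tr : (Fin k → Fin w) → Finset (Fin k × Fin w)) (3 ^ L)
      m w (fun b i => Λ ^ (b - i) * (Q : ℝ) ^ (b.choose 2 - i.choose 2)) η where
  hM := by positivity
  hw := hw
  hη := hη
  hP := fun T => by exact_mod_cast nc_subset_tr T
  hN := fun S hS b hb I => by
    refine le_trans ?_ (card_mins_sparse L Q m hΛ h32 S hS b hb I)
    refine Nat.cast_le.2 (Finset.card_le_card fun T hT => ?_)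
    simp only [Finset.mem_filter] at hT ⊢
    exact hT
  hQ := by
    intro T hT1 hTm
    have hQ1 : (1 : ℝ) ≤ Q := by
      exact_mod_cast Nat.one_le_iff_ne_zero.2 (NeZero.ne Q)
    have hQ0 : (0 : ℝ) < Q := by linarith
    have hΛ0 : (0 : ℝ) < Λ := by linarith
    have hw0 : (0 : ℝ) < w := by exact_mod_cast hw
    set b := T.card with hb
    set e := b.choose 2 with he
    have e00 : b.choose 2 - (0 : ℕ).choose 2 = e := by
      rw [he]
      simp
    rw [Nat.sub_zero, e00]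
    -- containing a fixed clique
    have h1 : (Fintype.card (Sym2 (Fin k × Fin w) → (Fin L → Fin Q)) : ℝ) ≤
        nc (fun ω : Sym2 (Fin k × Fin w) → (Fin L → Fin Q) => cq T ≤ gr (zset L Q) ω) *
          (Q : ℝ) ^ e := by
      have g1 := nc_forall_mem (I := Sym2 (Fin k × Fin w)) (ed T) (zset L Q)
      rw [card_ed, ← hb, ← he, Fintype.card_fun (α := Fin L), Fintype.card_fin,
        Fintype.card_fin] at g1
      have g2 : nc (fun x : Sym2 (Fin k × Fin w) → (Fin L → Fin Q) =>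
          ∀ i ∈ ed T, x i ∈ zset L Q) ≤
          nc (fun ω : Sym2 (Fin k × Fin w) → (Fin L → Fin Q) => cq T ≤ gr (zset L Q) ω) := by
        refine nc_mono fun ω hω u v huv => ⟨huv.1, hω _ (mem_ed.2 huv)⟩
      have g3 := Nat.pow_le_pow_left (card_zset_mul_ge L Q hL) e
      have hQL : 0 < (Q ^ L) ^ e := by
        have : 0 < Q := Nat.pos_of_ne_zero (NeZero.ne Q)
        positivity
      have g4 : Fintype.card (Sym2 (Fin k × Fin w) → (Fin L → Fin Q)) ≤
          nc (fun ω : Sym2 (Fin k × Fin w) → (Fin L → Fin Q) => cq T ≤ gr (zset L Q) ω) *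
            Q ^ e := by
        refine Nat.le_of_mul_le_mul_left ?_ hQL
        calc (Q ^ L) ^ e * Fintype.card (Sym2 (Fin k × Fin w) → (Fin L → Fin Q))
            ≤ ((zset L Q).card * Q) ^ e *
              Fintype.card (Sym2 (Fin k × Fin w) → (Fin L → Fin Q)) :=
              Nat.mul_le_mul_right _ g3
          _ = (nc (fun x : Sym2 (Fin k × Fin w) → (Fin L → Fin Q) =>
              ∀ i ∈ ed T, x i ∈ zset L Q) * (Q ^ L) ^ e) * Q ^ e := by
              rw [g1, mul_pow]
              ring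
          _ ≤ (nc (fun ω : Sym2 (Fin k × Fin w) → (Fin L → Fin Q) =>
              cq T ≤ gr (zset L Q) ω) * (Q ^ L) ^ e) * Q ^ e :=
              Nat.mul_le_mul_right _ (Nat.mul_le_mul_right _ g2)
          _ = _ := by ring
      exact_mod_cast g4
    have h2 : (2 * Λ * (Q : ℝ) ^ (b - 1)) ^ b ≤ (w : ℝ) ^ b := by
      refine pow_le_pow_left₀ (by positivity) ?_ b
      refine le_trans ?_ hc
      have g1 : (Q : ℝ) ^ (b - 1) ≤ (Q : ℝ) ^ (m - 1) := pow_le_pow_right₀ hQ1 (by omega)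
      exact mul_le_mul_of_nonneg_left g1 (by positivity)
    have h3 : Λ ^ b * (Q : ℝ) ^ e * 2 ^ b * (Q : ℝ) ^ e = (2 * Λ * (Q : ℝ) ^ (b - 1)) ^ b := by
      have : (Q : ℝ) ^ e * (Q : ℝ) ^ e = ((Q : ℝ) ^ (b - 1)) ^ b := by
        rw [← pow_add, ← pow_mul, ← two_mul_choose_two, ← he, two_mul]
      rw [mul_pow, mul_pow, ← this]
      ring
    calc Λ ^ b * (Q : ℝ) ^ e * 2 ^ b * Fintype.card (Sym2 (Fin k × Fin w) → (Fin L → Fin Q))
        ≤ Λ ^ b * (Q : ℝ) ^ e * 2 ^ b *
          (nc (fun ω : Sym2 (Fin k × Fin w) → (Fin L → Fin Q) => cq T ≤ gr (zset L Q) ω) *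
          (Q : ℝ) ^ e) := mul_le_mul_of_nonneg_left h1 (by positivity)
      _ = (2 * Λ * (Q : ℝ) ^ (b - 1)) ^ b *
          nc (fun ω : Sym2 (Fin k × Fin w) → (Fin L → Fin Q) => cq T ≤ gr (zset L Q) ω) := by
          rw [← h3]
          ring
      _ ≤ _ := mul_le_mul_of_nonneg_right h2 (by positivity)
  hE := by
    intro a ha j hj i hia hij hlt
    have h1 := hE a ha j hj i hia hij hlt
    refine le_trans (le_of_eq ?_) h1
    have e1 : a.choose 2 - (0 : ℕ).choose 2 = a.choose 2 := by simp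
    rw [Nat.sub_zero, e1]
    have e2 : a + j - i = a + (j - i) := by omega
    rw [e2, pow_add, pow_add]
    ring

end

/-- **Finite form, sparse case.** -/
theorem sparse_finite {ι : Type} {k l w L Q J N lam n s m : ℕ} [NeZero Q]
    (hL : 1 ≤ L) (hw : 1 ≤ w) (hm : 2 ≤ m) {Λ η : ℝ} (hΛ : 1 ≤ Λ) (hη : 0 ≤ η)
    (h32 : (1 + 1 / Λ) ^ m ≤ 3 / 2) (hc : 2 * Λ * (Q : ℝ) ^ (m - 1) ≤ w)
    (hE : ∀ a ≤ m, ∀ j ≤ m, ∀ i ≤ a, i ≤ j → m < a + j - i →
      Λ ^ (a + j - i) * (Q : ℝ) ^ (a.choose 2 + (j.choose 2 - i.choose 2)) ≤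
        η * (w : ℝ) ^ (a + j - i))
    (hn : k * w * N ≤ n)
    (hcount : (k * w * N) ^ 2 * J ^ (lam + 1) < N ^ (2 * (lam + 1)))
    (he1 : 2 * (J : ℝ) * s * ((m + 1) ^ 2 * 2 ^ m * η) ≤ 1)
    (he2 : 2 * (J : ℝ) * s * ((k * w + 1 : ℕ) : ℝ) ^ m ≤ 3 ^ L)
    (hcl : 2 * n ^ l * (lam * L) ^ (l.choose 2) ≤ Q ^ (l.choose 2))
    (T : Finset ι) (M : ι → SimpleGraph (Fin n) → Prop) (hM : ∀ t ∈ T, MonoSize s (M t))
    (f : SimpleGraph (Fin n) → Prop) (hf : ∀ x y, (∀ t ∈ T, M t x ↔ M t y) → (f x ↔ f y))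
    (hpos : ∀ x, ¬ x.CliqueFree k → f x) (hneg : ∀ x, x.CliqueFree l → ¬ f x) :
    J ≤ 6 * T.card := by
  classical
  have hV : Fintype.card (Fin k × Fin w) = k * w := by
    rw [Fintype.card_prod, Fintype.card_fin, Fintype.card_fin]
  obtain ⟨φ, hφ⟩ := exists_blocks (V := Fin k × Fin w) (n := n) (N := N) (J := J) (lam := lam)
    (by rw [hV]; exact hn) (by rw [hV]; exact hcount)
  have : Nonempty (Fin w) := ⟨⟨0, hw⟩⟩
  have hB := blockHyp_sparse (k := k) (w := w) (L := L) (Q := Q) m hL hw hΛ hη h32 hc hE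
  set ε : ℝ := s * ((m + 1) ^ 2 * 2 ^ m * η + small (Fin k × Fin w) m / ((3 ^ L : ℕ) : ℝ))
    with hε
  have hε0 : 0 ≤ ε := by
    rw [hε]
    positivity
  have hw0 : (0 : ℝ) < w := by exact_mod_cast hw
  have hmain := chain_bound (φ := φ) (ε := ε) hε0
    (fun F hF => hB.main hm hF) T M hM f hf (fun x => x.CliqueFree l)
    (fun x y hxy hy => hy.anti hxy) hneg
    (fun j p G => hpos _ (planted_not_cliqueFree (φ j) p G))
  -- the error term
  have hJε : (J : ℝ) * ε ≤ 1 := by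
    rw [hε]
    have g1 : (J : ℝ) * (s * ((m + 1) ^ 2 * 2 ^ m * η)) ≤ 1 / 2 := by
      push_cast
      linarith
    have g2 : (J : ℝ) * (s * (small (Fin k × Fin w) m / ((3 ^ L : ℕ) : ℝ))) ≤
        1 / 2 := by
      have e1 : (J : ℝ) * (s * (small (Fin k × Fin w) m / ((3 ^ L : ℕ) : ℝ))) =
          (2 * (J : ℝ) * s * small (Fin k × Fin w) m) / 3 ^ L / 2 := by
        push_cast
        ring
      rw [e1]
      have e2 : (2 * (J : ℝ) * s * small (Fin k × Fin w) m) / 3 ^ L ≤ 1 := by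
        rw [div_le_one (by positivity)]
        refine le_trans (mul_le_mul_of_nonneg_left ?_ (by positivity)) he2
        have := small_le (Fin k × Fin w) m
        rw [hV] at this
        exact_mod_cast this
      linarith
    have g3 : (J : ℝ) * (s * ((m + 1) ^ 2 * 2 ^ m * η +
        small (Fin k × Fin w) m / ((3 ^ L : ℕ) : ℝ))) =
        (J : ℝ) * (s * ((m + 1) ^ 2 * 2 ^ m * η)) +
        (J : ℝ) * (s * (small (Fin k × Fin w) m / ((3 ^ L : ℕ) : ℝ))) := by
      ring
    rw [g3]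
    linarith
  -- most unions of blocks contain no clique
  set K := Fintype.card (Fin J → (Sym2 (Fin k × Fin w) → (Fin L → Fin Q))) with hK
  have hK0 : (0 : ℝ) < K := by
    rw [hK]
    exact_mod_cast Fintype.card_pos
  have hbad := nc_not_cliqueFree_le φ lam hφ (zset L Q) l
  rw [← hK, Fintype.card_fun, Fintype.card_fin, Fintype.card_fin] at hbad
  have hQpos : 0 < Q := Nat.pos_of_ne_zero (NeZero.ne Q)
  have hbad2 : 2 * nc (fun ω : Fin J → (Sym2 (Fin k × Fin w) → (Fin L → Fin Q)) =>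
      ¬ (pre φ (gr (zset L Q)) ω J).CliqueFree l) ≤ K := by
    have g1 := Nat.pow_le_pow_left (card_zset_mul_le L Q) (l.choose 2)
    have g2 : 0 < (Q ^ L) ^ (l.choose 2) * Q ^ (l.choose 2) := by positivity
    refine Nat.le_of_mul_le_mul_left ?_ g2
    calc (Q ^ L) ^ (l.choose 2) * Q ^ (l.choose 2) *
          (2 * nc (fun ω : Fin J → (Sym2 (Fin k × Fin w) → (Fin L → Fin Q)) =>
            ¬ (pre φ (gr (zset L Q)) ω J).CliqueFree l))
        = 2 * Q ^ (l.choose 2) *
          (nc (fun ω : Fin J → (Sym2 (Fin k × Fin w) → (Fin L → Fin Q)) =>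
            ¬ (pre φ (gr (zset L Q)) ω J).CliqueFree l) * (Q ^ L) ^ (l.choose 2)) := by
          ring
      _ ≤ 2 * Q ^ (l.choose 2) *
          (n.choose l * (lam ^ (l.choose 2) * ((zset L Q).card ^ (l.choose 2) * K))) :=
          Nat.mul_le_mul_left _ hbad
      _ ≤ 2 * Q ^ (l.choose 2) *
          (n ^ l * (lam ^ (l.choose 2) * ((zset L Q).card ^ (l.choose 2) * K))) :=
          Nat.mul_le_mul_left _ (Nat.mul_le_mul_right _ (Nat.choose_le_pow n l))
      _ = 2 * n ^ l * lam ^ (l.choose 2) * ((zset L Q).card * Q) ^ (l.choose 2) * K := by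
          rw [mul_pow]
          ring
      _ ≤ 2 * n ^ l * lam ^ (l.choose 2) * (L * Q ^ L) ^ (l.choose 2) * K :=
          Nat.mul_le_mul_right _ (Nat.mul_le_mul_left _ g1)
      _ = (2 * n ^ l * (lam * L) ^ (l.choose 2)) * ((Q ^ L) ^ (l.choose 2) * K) := by
          rw [mul_pow, mul_pow]
          ring
      _ ≤ Q ^ (l.choose 2) * ((Q ^ L) ^ (l.choose 2) * K) := Nat.mul_le_mul_right _ hcl
      _ = _ := by ring
  have hgood : (K : ℝ) / 2 ≤
      nc (fun ω : Fin J → (Sym2 (Fin k × Fin w) → (Fin L → Fin Q)) =>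
        (pre φ (gr (zset L Q)) ω J).CliqueFree l) := by
    have g1 := nc_add_nc_not fun ω : Fin J → (Sym2 (Fin k × Fin w) → (Fin L → Fin Q)) =>
      (pre φ (gr (zset L Q)) ω J).CliqueFree l
    rw [← hK] at g1
    have g3 : (2 * nc (fun ω : Fin J → (Sym2 (Fin k × Fin w) → (Fin L → Fin Q)) =>
      ¬ (pre φ (gr (zset L Q)) ω J).CliqueFree l) : ℝ) ≤ K := by exact_mod_cast hbad2
    have g4 : (nc (fun ω : Fin J → (Sym2 (Fin k × Fin w) → (Fin L → Fin Q)) =>
      (pre φ (gr (zset L Q)) ω J).CliqueFree l) : ℝ) +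
      nc (fun ω : Fin J → (Sym2 (Fin k × Fin w) → (Fin L → Fin Q)) =>
        ¬ (pre φ (gr (zset L Q)) ω J).CliqueFree l) = K := by exact_mod_cast g1
    linarith
  have hfin : (J : ℝ) * (K / 2) ≤ T.card * 3 * K := by
    calc (J : ℝ) * (K / 2)
        ≤ (J : ℝ) *
          nc (fun ω : Fin J → (Sym2 (Fin k × Fin w) → (Fin L → Fin Q)) =>
            (pre φ (gr (zset L Q)) ω J).CliqueFree l) :=
          mul_le_mul_of_nonneg_left hgood (by positivity)
      _ ≤ T.card * (2 + (J : ℝ) * ε) * K := hmain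
      _ ≤ T.card * 3 * K := by
          refine mul_le_mul_of_nonneg_right ?_ hK0.le
          exact mul_le_mul_of_nonneg_left (by linarith) (by positivity)
  have hfin2 : (J : ℝ) ≤ 6 * T.card := by
    have : (J : ℝ) * K ≤ (6 * T.card) * K := by linarith
    exact le_of_mul_le_mul_right this hK0
  exact_mod_cast hfin2

end Pool.Agent.H25.NM
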